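import Pool.Agent.H457Z.Clu.Mut

set_option autoImplicit false

namespace Pool.Agent.H457Z.Clu

/-- The adjacent minor of order `r` of a bi-infinite matrix, with upper left entry `(i, j)`. -/
def adjMinor (M : ℤ → ℤ → ℚ) (r : ℕ) (i j : ℤ) : ℚ :=
  (Matrix.of fun a b : Fin r => M (i + (a : ℕ)) (j + (b : ℕ))).det

/-- A tame `SL_k`-frieze of width `w`. -/
structure IsFrieze (k w : ℕ) (M : ℤ → ℤ → ℚ) : Prop where
  sl : ∀ i j, adjMinor M k i j = 1
  tame : ∀ i j, adjMinor M (k + 1) i j = 0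
  one : ∀ i j : ℤ, j - i = -1 ∨ j - i = w → M i j = 1
  zero : ∀ i j : ℤ, (-(k : ℤ) ≤ j - i ∧ j - i ≤ -2) ∨ ((w : ℤ) + 1 ≤ j - i ∧ j - i ≤ w + k - 1) →
    M i j = 0

/-- All entries of the frieze are positive integers. -/
def PositiveIntegerValues (w : ℕ) (M : ℤ → ℤ → ℚ) : Prop :=
  ∀ i j : ℤ, 0 ≤ j - i → j - i ≤ (w : ℤ) - 1 → ∃ z : ℕ, 0 < z ∧ M i j = z

/-- The columns of a `k × n` matrix, `n = w + k + 1`, extended to all integers by
`col (j + n) = (-1)^(k-1) col j`. -/
def col {k w : ℕ} (A : Matrix (Fin k) (Fin (w + k + 1)) ℚ) (j : ℤ) : Fin k → ℚ := fun r =>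
  (-1) ^ (((k : ℤ) - 1) * (j / (w + k + 1 : ℕ))) *
    A r ⟨(j % (w + k + 1 : ℕ)).toNat, by
      have h1 := Int.emod_nonneg j (b := ((w + k + 1 : ℕ) : ℤ)) (by omega)
      have h2 := Int.emod_lt_of_pos j (b := ((w + k + 1 : ℕ) : ℤ)) (by omega)
      omega⟩

/-- The `k × n` matrix `A` corresponds to the frieze `M`: its cyclically consecutive minors are `1`
and the entry `M i j` is the Pluecker coordinate with columns `i+1, ..., i+k-1, j+k+1`. -/
def Corresponds {k w : ℕ} (A : Matrix (Fin k) (Fin (w + k + 1)) ℚ) (M : ℤ → ℤ → ℚ) : Prop :=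
  (∀ i : ℤ, (Matrix.of fun r t : Fin k => col A (i + (t : ℕ)) r).det = 1) ∧
  ∀ i j : ℤ, 0 ≤ j - i → j - i ≤ (w : ℤ) - 1 → M i j = (Matrix.of fun r t : Fin k =>
    col A (if (t : ℕ) + 1 < k then i + 1 + (t : ℕ) else j + k + 1) r).det

/-- Polynomials with integer coefficients in the entries of a `k × n` matrix. -/
abbrev Poly (k w : ℕ) : Type := MvPolynomial (Fin k × Fin (w + k + 1)) ℤ

/-- Rational functions in the entries of a `k × n` matrix. -/
abbrev RatF (k w : ℕ) : Type := FractionRing (Poly k w)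

/-- Vertices of the rectangles seed of `Gr(k,n)`: `none` is the empty rectangle and `some (i,j)` is
the `(i+1) × (j+1)` rectangle inside the `k × (n-k)` rectangle. -/
abbrev Vert (k w : ℕ) : Type := Option (Fin k × Fin (w + 1))

/-- The columns (numbered from 0, increasing) of the Pluecker coordinate of a rectangle. -/
def rectCol {k w : ℕ} : Vert k w → Fin k → Fin (w + k + 1)
  | none, t => ⟨w + 1 + t, by omega⟩
  | some (i, j), t => if t ≤ i then ⟨w - j + t, by omega⟩ else ⟨w + 1 + t, by omega⟩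

/-- The Pluecker coordinate of a rectangle, as a polynomial in the matrix entries. -/
noncomputable def plucker {k w : ℕ} (v : Vert k w) : Poly k w :=
  (Matrix.of fun r t : Fin k => (MvPolynomial.X (r, rectCol v t) : Poly k w)).det

/-- The number of arrows from one vertex of the rectangles quiver to another. -/
def arrows {k w : ℕ} : Vert k w → Vert k w → ℤ
  | none, some (i, j) => if (i : ℕ) = 0 ∧ (j : ℕ) = 0 then 1 else 0
  | some (i, j), some (i', j') =>
      if ((i' : ℕ) = i ∧ (j' : ℕ) = j + 1) ∨ ((i' : ℕ) = i + 1 ∧ (j' : ℕ) = j) ∨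
        ((i' : ℕ) + 1 = i ∧ (j' : ℕ) + 1 = j) then 1 else 0
  | _, none => 0

/-- The mutable vertices: nonempty rectangles with fewer than `k` rows and fewer than `n-k`
columns. -/
def Mutable {k w : ℕ} : Vert k w → Prop
  | none => False
  | some (i, j) => (i : ℕ) + 1 < k ∧ (j : ℕ) < w

/-- The rectangles seed. -/
noncomputable def seed (k w : ℕ) : (Vert k w → RatF k w) × (Vert k w → Vert k w → ℤ) :=
  (fun v => algebraMap (Poly k w) (RatF k w) (plucker v), fun u v => arrows u v - arrows v u)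

/-- The cluster variables of the standard cluster structure on `Gr(k,n)`. -/
def IsClusterVariable (k w : ℕ) (x : RatF k w) : Prop :=
  ∃ (ks : List (Vert k w)) (v : Vert k w), (∀ u ∈ ks, Mutable u) ∧ Mutable v ∧
    x = (ks.foldl mutate (seed k w)).1 v

/-- The rational function `x` is defined at the matrix `A` and takes the value `q` there. -/
def HasValue {k w : ℕ} (x : RatF k w) (A : Matrix (Fin k) (Fin (w + k + 1)) ℚ) (q : ℚ) : Prop :=
  ∃ P Q : Poly k w, MvPolynomial.aeval (fun p => A p.1 p.2) Q ≠ 0 ∧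
    x = algebraMap (Poly k w) (RatF k w) P / algebraMap (Poly k w) (RatF k w) Q ∧
    q = MvPolynomial.aeval (fun p => A p.1 p.2) P / MvPolynomial.aeval (fun p => A p.1 p.2) Q

end Pool.Agent.H457Z.Clu
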