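import Mathlib

set_option autoImplicit false

namespace Pool.Agent.H457Z.Clu

open Matrix

variable {A : Type} [CommRing A] {k : ℕ}

def colM (L : List (Fin k → A)) : Matrix (Fin k) (Fin k) A := Matrix.of fun r t => L.getD t 0 r

def D (L : List (Fin k → A)) : A := (colM L).det

lemma colM_update (p q : List (Fin k → A)) (x y : Fin k → A) (h : p.length < k) :
    colM (p ++ x :: q) = (colM (p ++ y :: q)).updateCol ⟨p.length, h⟩ x := by
  ext r t
  by_cases ht : t = ⟨p.length, h⟩
  · subst ht
    simp [colM]
  · rw [updateCol_ne ht]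
    have ht' : (t : ℕ) ≠ p.length := fun e => ht (Fin.ext e)
    simp only [colM, of_apply, List.getD_eq_getElem?_getD]
    rcases lt_or_gt_of_ne ht' with h1 | h1
    · rw [List.getElem?_append_left h1, List.getElem?_append_left h1]
    · rw [List.getElem?_append_right h1.le, List.getElem?_append_right h1.le]
      obtain ⟨d, hd⟩ : ∃ d, (t : ℕ) - p.length = d + 1 := ⟨t - p.length - 1, by omega⟩
      rw [hd]
      simp

lemma D_swap (p q : List (Fin k → A)) (x y : Fin k → A) (h : p.length + 1 < k) :
    D (p ++ x :: y :: q) = -D (p ++ y :: x :: q) := by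
  unfold D
  have e : colM (p ++ x :: y :: q) = (colM (p ++ y :: x :: q)).submatrix id
      (Equiv.swap (⟨p.length, by omega⟩ : Fin k) ⟨p.length + 1, h⟩) := by
    ext r t
    simp only [colM, submatrix_apply, of_apply, id, List.getD_eq_getElem?_getD]
    by_cases h1 : t = ⟨p.length, by omega⟩
    · subst h1
      rw [Equiv.swap_apply_left]
      simp
    · by_cases h2 : t = ⟨p.length + 1, h⟩
      · subst h2
        rw [Equiv.swap_apply_right]
        simp
      · rw [Equiv.swap_apply_of_ne_of_ne h1 h2]
        have a1 : (t : ℕ) ≠ p.length := fun e => h1 (Fin.ext e)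
        have a2 : (t : ℕ) ≠ p.length + 1 := fun e => h2 (Fin.ext e)
        rcases lt_or_gt_of_ne a1 with h3 | h3
        · rw [List.getElem?_append_left h3, List.getElem?_append_left h3]
        · rw [List.getElem?_append_right h3.le, List.getElem?_append_right h3.le]
          obtain ⟨d, hd⟩ : ∃ d, (t : ℕ) - p.length = d + 2 := ⟨t - p.length - 2, by omega⟩
          rw [hd]
          simp
  rw [e, det_permute', Equiv.Perm.sign_swap (by simp [Fin.ext_iff])]
  simp

lemma D_move (C : List (Fin k → A)) : ∀ (p q : List (Fin k → A)) (x : Fin k → A),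
    p.length + C.length < k → D (p ++ x :: (C ++ q)) = (-1) ^ C.length * D (p ++ (C ++ x :: q)) := by
  induction C with
  | nil => intro p q x _; simp
  | cons c C ih =>
    intro p q x h
    simp only [List.length_cons] at h
    rw [List.cons_append, D_swap p _ x c (by omega)]
    have := ih (p ++ [c]) q x (by simp; omega)
    simp only [List.append_assoc, List.cons_append, List.nil_append] at this
    rw [this, List.length_cons, pow_succ, List.cons_append]
    ring

lemma D_dup (L : List (Fin k → A)) (s t : Fin k) (hst : s ≠ t) (h : L.getD s 0 = L.getD t 0) :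
    D L = 0 :=
  det_zero_of_column_eq hst fun r => by simp only [colM, of_apply, h]

lemma D_zero (L : List (Fin k → A)) (s : Fin k) (h : L.getD s 0 = 0) : D L = 0 :=
  det_eq_zero_of_column_eq_zero s fun r => by simp only [colM, of_apply, h, Pi.zero_apply]

lemma D_cramer (p q : List (Fin k → A)) (x y : Fin k → A) (h : p.length < k) :
    D (p ++ x :: q) = cramer (colM (p ++ y :: q)) x ⟨p.length, h⟩ := by
  rw [cramer_apply, D, colM_update p q x y h]

/-- three-term Grassmann-Pluecker relation -/
theorem D_plucker (p q : List (Fin k → A)) (a b c d : Fin k → A) (h : p.length + 1 < k) :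
    D (p ++ a :: c :: q) * D (p ++ b :: d :: q) =
      D (p ++ a :: b :: q) * D (p ++ c :: d :: q) + D (p ++ a :: d :: q) * D (p ++ b :: c :: q) := by
  let M := colM (p ++ c :: d :: q)
  let i0 : Fin k := ⟨p.length, by omega⟩
  let i1 : Fin k := ⟨p.length + 1, h⟩
  have hl : (p ++ [a]).length < k := by simpa using h
  let φ : (Fin k → A) →ₗ[A] A :=
    (LinearMap.proj (⟨(p ++ [a]).length, hl⟩ : Fin k)).comp (cramer (colM ((p ++ [a]) ++ 0 :: q)))
  have hφ : ∀ x, φ x = D (p ++ a :: x :: q) := by
    intro x
    have := D_cramer (p ++ [a]) q x 0 hl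
    simp only [List.append_assoc, List.cons_append, List.nil_append] at this
    rw [this]
    simp [φ]
  have key := mulVec_cramer M b
  have e : M *ᵥ cramer M b = ∑ t, cramer M b t • (fun r => M r t) := by
    funext r
    simp [mulVec, dotProduct, Finset.sum_apply, mul_comm]
  rw [e] at key
  have k2 := congrArg φ key
  rw [map_sum, map_smul] at k2
  simp only [map_smul] at k2
  simp only [hφ, smul_eq_mul] at k2
  have h01 : i0 ≠ i1 := by simp [i0, i1, Fin.ext_iff]
  rw [Finset.sum_eq_add i0 i1 h01] at k2
  · have c0 : (fun r => M r i0) = c := by funext r; simp [M, colM, i0]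
    have c1 : (fun r => M r i1) = d := by funext r; simp [M, colM, i1]
    have m0 : cramer M b i0 = D (p ++ b :: d :: q) :=
      (D_cramer p (d :: q) b c (by omega)).symm
    have m1 : cramer M b i1 = D (p ++ c :: b :: q) := by
      have := D_cramer (p ++ [c]) q b d (by simpa using h)
      simp only [List.append_assoc, List.cons_append, List.nil_append, List.length_append,
        List.length_singleton] at this
      exact this.symm
    rw [c0, c1, m0, m1, D_swap p q c b h] at k2
    have : M.det = D (p ++ c :: d :: q) := rfl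
    rw [this] at k2
    linear_combination k2
  · intro t _ ht
    rw [D_dup (p ++ a :: (fun r => M r t) :: q) t i1 ht.2, mul_zero]
    have a1 : (t : ℕ) ≠ p.length := fun e => ht.1 (Fin.ext e)
    have a2 : (t : ℕ) ≠ p.length + 1 := fun e => ht.2 (Fin.ext e)
    have r1 : (p ++ a :: (fun r => M r t) :: q).getD i1 0 = fun r => M r t := by simp [i1]
    rw [r1]
    funext r
    simp only [M, colM, of_apply, List.getD_eq_getElem?_getD]
    rcases lt_or_gt_of_ne a1 with h3 | h3
    · rw [List.getElem?_append_left h3, List.getElem?_append_left h3]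
    · rw [List.getElem?_append_right h3.le, List.getElem?_append_right h3.le]
      obtain ⟨d, hd⟩ : ∃ d, (t : ℕ) - p.length = d + 2 := ⟨t - p.length - 2, by omega⟩
      rw [hd]
      simp
  · simp
  · simp

/-- the hexagonal exchange relation -/
theorem D_hex (C1 C2 : List (Fin k → A)) (a b c d e f : Fin k → A) (h : C1.length + 2 < k) :
    D (C1 ++ c :: d :: f :: C2) * D (b :: (C1 ++ e :: f :: C2)) * D (a :: b :: (C1 ++ c :: C2)) +
      D (a :: b :: (C1 ++ f :: C2)) * D (b :: (C1 ++ c :: d :: C2)) * D (C1 ++ c :: e :: f :: C2) =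
    D (b :: (C1 ++ c :: f :: C2)) *
      (D (C1 ++ a :: b :: d :: C2) * D (C1 ++ c :: e :: f :: C2) -
        D (C1 ++ a :: b :: c :: C2) * D (C1 ++ d :: e :: f :: C2)) := by
  have m1 : ∀ (x : Fin k → A) (q : List (Fin k → A)),
      D (x :: (C1 ++ q)) = (-1) ^ C1.length * D (C1 ++ x :: q) := fun x q => by
    simpa using D_move C1 [] q x (by simp; omega)
  have m2 : ∀ (q : List (Fin k → A)), D (a :: b :: (C1 ++ q)) = D (C1 ++ a :: b :: q) := fun q => by
    have := D_move C1 [a] q b (by simp; omega)
    simp only [List.cons_append, List.nil_append] at this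
    rw [this, m1, ← mul_assoc, ← mul_pow]
    simp
  rw [m1, m1, m1, m2, m2]
  have p1 := D_plucker C1 (f :: C2) b c d e (by omega)
  have p2 := D_plucker (C1 ++ [b]) C2 a c d f (by simp; omega)
  simp only [List.append_assoc, List.cons_append, List.nil_append] at p2
  rw [D_swap C1 (d :: C2) b a (by omega), D_swap C1 (c :: C2) b a (by omega),
    D_swap C1 (f :: C2) b a (by omega)] at p2
  linear_combination (-(-1) ^ C1.length * D (C1 ++ a :: b :: c :: C2)) * p1 +
    ((-1) ^ C1.length * D (C1 ++ c :: e :: f :: C2)) * p2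

theorem D_side (C1 C2 : List (Fin k → A)) (a b c e f : Fin k → A) (h : C1.length + 2 < k) :
    D (b :: (C1 ++ e :: f :: C2)) * D (a :: b :: (C1 ++ c :: C2)) +
      D (a :: b :: (C1 ++ f :: C2)) * D (b :: (C1 ++ c :: e :: C2)) =
    D (b :: (C1 ++ c :: f :: C2)) * D (C1 ++ a :: b :: e :: C2) := by
  have m1 : ∀ (x : Fin k → A) (q : List (Fin k → A)),
      D (x :: (C1 ++ q)) = (-1) ^ C1.length * D (C1 ++ x :: q) := fun x q => by
    simpa using D_move C1 [] q x (by simp; omega)
  have m2 : ∀ (q : List (Fin k → A)), D (a :: b :: (C1 ++ q)) = D (C1 ++ a :: b :: q) := fun q => by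
    have := D_move C1 [a] q b (by simp; omega)
    simp only [List.cons_append, List.nil_append] at this
    rw [this, m1, ← mul_assoc, ← mul_pow]
    simp
  rw [m1, m1, m1, m2, m2]
  have p2 := D_plucker (C1 ++ [b]) C2 a c e f (by simp; omega)
  simp only [List.append_assoc, List.cons_append, List.nil_append] at p2
  rw [D_swap C1 (e :: C2) b a (by omega), D_swap C1 (c :: C2) b a (by omega),
    D_swap C1 (f :: C2) b a (by omega)] at p2
  linear_combination ((-1) ^ C1.length : A) * p2

lemma map_D {A' : Type} [CommRing A'] (θ : A →+* A') (L : List (Fin k → A)) :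
    θ (D L) = D (L.map fun x r => θ (x r)) := by
  unfold D
  rw [RingHom.map_det]
  congr 1
  ext r t
  simp only [colM, RingHom.mapMatrix_apply, map_apply, of_apply, List.getD_eq_getElem?_getD,
    List.getElem?_map]
  cases L[(t : ℕ)]? <;> simp

def mom (k : ℕ) (c : ℕ) : Fin k → ℚ := fun r => (c : ℚ) ^ (r : ℕ)

lemma D_mom (L : List ℕ) (hl : L.length = k) :
    D (L.map (mom k)) = (vandermonde fun t : Fin k => ((L.getD t 0 : ℕ) : ℚ)).det := by
  rw [← det_transpose]
  unfold D
  congr 1
  ext r t
  have ht : (t : ℕ) < L.length := by omega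
  simp [colM, vandermonde_apply, mom, List.getD_eq_getElem?_getD, List.getElem?_eq_getElem ht]

lemma D_mom_ne (L : List ℕ) (hl : L.length = k) (hn : L.Nodup) : D (L.map (mom k)) ≠ 0 := by
  rw [D_mom L hl, det_vandermonde_ne_zero_iff]
  intro s t hst
  have hs : (s : ℕ) < L.length := by omega
  have ht : (t : ℕ) < L.length := by omega
  simp only [List.getD_eq_getElem?_getD, List.getElem?_eq_getElem hs, List.getElem?_eq_getElem ht,
    Option.getD_some, Nat.cast_inj] at hst
  exact Fin.ext ((List.Nodup.getElem_inj_iff hn).mp hst)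

open MvPolynomial in
theorem prime_det {σ τ : Type} [DecidableEq σ] [DecidableEq τ] (k : ℕ) :
    ∀ (ρ : Fin (k + 1) → σ) (γ : Fin (k + 1) → τ), Function.Injective ρ → Function.Injective γ →
      Prime (Matrix.of fun r t => (X (ρ r, γ t) : MvPolynomial (σ × τ) ℤ)).det := by
  induction k with
  | zero =>
    intro ρ γ _ _
    rw [det_fin_one]
    exact X_prime
  | succ k ih =>
    intro ρ γ hρ hγ
    set M : Matrix (Fin (k + 2)) (Fin (k + 2)) (MvPolynomial (σ × τ) ℤ) :=
      Matrix.of fun r t => X (ρ r, γ t) with hM
    set f := (M.submatrix Fin.succ Fin.succ).det with hf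
    have hfp : Prime f := ih (ρ ∘ Fin.succ) (γ ∘ Fin.succ) (hρ.comp (Fin.succ_injective _))
      (hγ.comp (Fin.succ_injective _))
    set M0 := M.updateRow 0 (Function.update (M 0) 0 0) with hM0
    have hsplit : M.det = f * X (ρ 0, γ 0) + M0.det := by
      have e : M = M.updateRow 0 ((Pi.single 0 (X (ρ 0, γ 0)) : Fin (k + 2) → MvPolynomial (σ × τ) ℤ) +
          Function.update (M 0) 0 0) := by
        ext1 r t
        by_cases hr : r = 0
        · subst hr
          by_cases ht : t = 0
          · subst ht; simp [hM]
          · simp [Pi.single_eq_of_ne ht, Function.update_of_ne ht]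
        · rw [updateRow_ne hr]
      conv_lhs => rw [e]
      rw [det_updateRow_add, det_succ_row_zero, Finset.sum_eq_single 0]
      · simp only [updateRow_self, Pi.single_eq_same, Fin.val_zero, pow_zero, one_mul,
          Fin.succAbove_zero]
        rw [mul_comm]
        congr 3
      · intro t _ ht; simp [Pi.single_eq_of_ne ht]
      · simp
    have hsup : ∀ {n : ℕ} (N : Matrix (Fin n) (Fin n) (MvPolynomial (σ × τ) ℤ)),
        (∀ r t, N r t ∈ supported ℤ {s | s ≠ (ρ 0, γ 0)}) → (ρ 0, γ 0) ∉ N.det.vars := by
      intro n N hN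
      have : N.det ∈ supported ℤ {s | s ≠ (ρ 0, γ 0)} := by
        rw [det_apply']
        exact sum_mem fun s _ => mul_mem (intCast_mem _ _) (prod_mem fun i _ => hN _ _)
      intro hv
      exact (mem_supported.mp this) hv rfl
    have hX : ∀ r t, (r ≠ 0 ∨ t ≠ 0) → M r t ∈ supported ℤ {s | s ≠ (ρ 0, γ 0)} := by
      intro r t h
      simp only [hM, of_apply]
      rw [X_mem_supported]
      intro e
      simp only [Prod.mk.injEq] at e
      rcases h with h | h
      · exact h (hρ e.1)
      · exact h (hγ e.2)
    rw [hsplit, ← UniqueFactorizationMonoid.irreducible_iff_prime]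
    refine irreducible_mul_X_add f _ _ hfp.ne_zero (hsup _ fun r t => hX _ _
      (Or.inl (Fin.succ_ne_zero r))) (hsup _ fun r t => ?_) ?_
    · by_cases hr : r = 0
      · subst hr
        by_cases ht : t = 0
        · subst ht; simp [hM0]
        · simp only [hM0, updateRow_self, Function.update_of_ne ht]
          exact hX _ _ (Or.inr ht)
      · rw [hM0, updateRow_ne hr]; exact hX _ _ (Or.inl hr)
    · rw [hfp.irreducible.isRelPrime_iff_not_dvd]
      intro hd
      let s : Equiv.Perm (Fin (k + 2)) := Equiv.swap 0 1
      let θ : MvPolynomial (σ × τ) ℤ →+* ℤ :=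
        eval fun q => if ∃ t, q = (ρ (s t), γ t) then 1 else 0
      have hθ : ∀ r t, θ (M r t) = if r = s t then 1 else 0 := by
        intro r t
        simp only [hM, of_apply, θ, eval_X, Prod.mk.injEq]
        congr 1
        apply propext
        constructor
        · rintro ⟨t', h1, h2⟩
          rw [hγ h2]; exact hρ h1
        · intro h; exact ⟨t, by rw [h], rfl⟩
      have h1 : θ f = 0 := by
        rw [hf, RingHom.map_det]
        refine det_eq_zero_of_column_eq_zero 0 fun r => ?_
        simp only [RingHom.mapMatrix_apply, map_apply, submatrix_apply, hθ]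
        rw [if_neg]
        simp [s]
      have h2 : θ M.det = Equiv.Perm.sign s := by
        rw [RingHom.map_det]
        have : θ.mapMatrix M = (1 : Matrix _ _ ℤ).submatrix id s := by
          ext r t
          simp [hθ, one_apply]
        rw [this, det_permute']
        simp
      have h3 : θ M0.det = 0 := by
        obtain ⟨c, hc⟩ := hd
        rw [hc, map_mul, h1, zero_mul]
      rw [hsplit, map_add, map_mul, h1, h3, zero_mul, add_zero] at h2
      exact (Equiv.Perm.sign s).ne_zero h2.symm

end Pool.Agent.H457Z.Clu
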