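import Pool.Agent.H457Z.Clu.LaurentC

set_option autoImplicit false

namespace Pool.Agent.H457Z.Clu

variable {ι : Type} [Fintype ι] [DecidableEq ι]

theorem starfish {R F : Type} [CommRing R] [IsDomain R] [Field F] (ψ : R →+* F)
    (hψ : Function.Injective ψ) {P : F → Prop} (hP : Pos P) (x : ι → R) (B : ι → ι → ℤ)
    (hB : Skew B) (hx : ∀ i, P (ψ (x i))) (mu : ι → Prop) [DecidablePred mu]
    (hprime : ∀ v, mu v → Prime (x v)) (hnd : ∀ v, mu v → ∀ u, u ≠ v → ¬ x v ∣ x u)
    (hy : ∀ v, mu v → ∃ y : R, ψ y = mutX (fun i => ψ (x i)) B v v ∧ ¬ x v ∣ y)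
    (ks : List ι) (i : ι) :
    ∃ (N : ℕ) (g : R), (ks.foldl mutate (fun i => ψ (x i), B)).1 i *
      ψ (∏ v ∈ Finset.univ.filter (fun v => ¬ mu v), x v) ^ N = ψ g := by
  set z := (ks.foldl mutate (fun i => ψ (x i), B)).1 i with hz
  have h0 : ∀ i, ψ (x i) ≠ 0 := fun i => hP.ne_zero (hx i)
  have clear : ∀ (x' : ι → R), (∀ i, ψ (x' i) ≠ 0) → z ∈ Lam (fun i => ψ (x' i)) →
      ∃ (N : ℕ) (f : R), ψ f = z * ψ (∏ i, x' i) ^ N := by
    intro x' hx' hz'
    refine Lam_clear ψ.range _ (ψ (∏ i, x' i)) ⟨_, rfl⟩ (fun i => ⟨_, rfl⟩) (fun i => ?_) z hz'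
    refine ⟨∏ j ∈ Finset.univ.erase i, x' j, ?_⟩
    rw [← Finset.mul_prod_erase _ _ (Finset.mem_univ i), map_mul, ← mul_assoc,
      inv_mul_cancel₀ (hx' i), one_mul]
  obtain ⟨N, f, hf⟩ := clear x h0 (laurent hP _ B hB hx ks i)
  have hdv : ∀ v, mu v → x v ^ N ∣ f := by
    intro v hv
    obtain ⟨y, hy1, hy2⟩ := hy v hv
    have p1 := hP.mutX hx B v
    have e : mutX (fun i => ψ (x i)) B v = fun i => ψ (Function.update x v y i) := by
      funext i
      by_cases hi : i = v
      · subst hi; simp [hy1]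
      · rw [mutX, Function.update_of_ne hi, Function.update_of_ne hi]
    have hz' := laurent hP _ (mutB B v) (hB.mut v) p1 (v :: ks) i
    rw [List.foldl_cons, show (mutX (fun i => ψ (x i)) B v, mutB B v) =
      mutate (fun i => ψ (x i), B) v from rfl, mutate_mutate hP _ hx B hB v, e] at hz'
    obtain ⟨N', f', hf'⟩ := clear (Function.update x v y)
      (fun i => by have := hP.ne_zero (p1 i); rwa [e] at this) hz'
    have key : f * (∏ i, Function.update x v y i) ^ N' = f' * (∏ i, x i) ^ N := by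
      apply hψ
      rw [map_mul, map_mul, map_pow, map_pow, hf, hf']; ring
    refine (hprime v hv).pow_dvd_of_dvd_mul_right N (b := (∏ i, Function.update x v y i) ^ N')
      (fun h => ?_) ?_
    · obtain ⟨u, _, hu⟩ := ((hprime v hv).dvd_finsetProd_iff _).mp ((hprime v hv).dvd_of_dvd_pow h)
      by_cases huv : u = v
      · subst huv; exact hy2 (by simpa using hu)
      · rw [Function.update_of_ne huv] at hu; exact hnd v hv u huv hu
    · rw [key]
      exact Dvd.dvd.mul_left (pow_dvd_pow_of_dvd (Finset.dvd_prod_of_mem x (Finset.mem_univ v)) N) _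
  have hall : ∀ s : Finset ι, (∀ v ∈ s, mu v) → (∏ v ∈ s, x v) ^ N ∣ f := by
    intro s
    induction s using Finset.induction_on with
    | empty => intro _; simp
    | insert v s hv ih =>
      intro hs
      obtain ⟨g, hg⟩ := ih (fun u hu => hs u (Finset.mem_insert_of_mem hu))
      have hmv := hs v (Finset.mem_insert_self _ _)
      have : x v ^ N ∣ g := by
        refine (hprime v hmv).pow_dvd_of_dvd_mul_left N (a := (∏ u ∈ s, x u) ^ N) (fun h => ?_)
          (hg ▸ hdv v hmv)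
        obtain ⟨u, hu, hu'⟩ := ((hprime v hmv).dvd_finsetProd_iff _).mp
          ((hprime v hmv).dvd_of_dvd_pow h)
        exact hnd v hmv u (fun e => hv (e ▸ hu)) hu'
      rw [Finset.prod_insert hv, mul_pow, hg, mul_comm]
      exact mul_dvd_mul_left _ this
  obtain ⟨g, hg⟩ := hall (Finset.univ.filter mu) (fun v hv => (Finset.mem_filter.mp hv).2)
  refine ⟨N, g, ?_⟩
  have hne : ψ (∏ v ∈ Finset.univ.filter mu, x v) ^ N ≠ 0 := by
    rw [map_prod]
    exact pow_ne_zero _ (Finset.prod_ne_zero_iff.mpr fun v _ => h0 v)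
  apply mul_left_cancel₀ hne
  rw [← map_pow ψ (∏ v ∈ Finset.univ.filter mu, x v), ← map_mul, ← hg, hf,
    ← Finset.prod_filter_mul_prod_filter_not Finset.univ mu x, map_mul, map_pow]
  ring

end Pool.Agent.H457Z.Clu
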