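import Pool.Agent.H457Z.Clu.Defs
import Pool.Agent.H457Z.Clu.Det
import Pool.Agent.H457Z.Clu.Star

set_option autoImplicit false

namespace Pool.Agent.H457Z.Clu

open MvPolynomial

variable {k w : ℕ}

noncomputable def U (k w : ℕ) (c : ℕ) : Fin k → Poly k w :=
  fun r => if h : c < w + k + 1 then X (r, ⟨c, h⟩) else 0

def rc : Vert k w → ℕ → ℕ
  | none, t => w + 1 + t
  | some (i, j), t => if t ≤ i then w - j + t else w + 1 + t

lemma rectCol_val (v : Vert k w) (t : Fin k) : (rectCol v t : ℕ) = rc v t := by
  rcases v with _ | ⟨i, j⟩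
  · rfl
  · simp only [rectCol, rc, Fin.le_def]
    split_ifs <;> rfl

lemma plucker_eq (v : Vert k w) (L : List ℕ) (hl : L.length = k)
    (h : ∀ t (ht : t < L.length), L[t] = rc v t) : plucker v = D (L.map (U k w)) := by
  unfold plucker D
  congr 1
  ext1 r t
  have ht : (t : ℕ) < L.length := by omega
  simp only [colM, Matrix.of_apply, List.getD_eq_getElem?_getD, List.getElem?_map,
    List.getElem?_eq_getElem ht, Option.map_some, Option.getD_some, U, h t ht]
  rw [dif_pos (by rw [← rectCol_val]; exact (rectCol v t).2)]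
  congr 2
  exact Fin.ext (rectCol_val v t)

noncomputable def th (W : ℕ → Fin k → ℚ) : Poly k w →+* ℚ :=
  eval₂Hom (Int.castRingHom ℚ) fun p => W p.2 p.1

lemma th_D (W : ℕ → Fin k → ℚ) (L : List ℕ) (h : ∀ c ∈ L, c < w + k + 1) :
    th W (D (L.map (U k w))) = D (L.map W) := by
  rw [map_D, List.map_map]
  congr 1
  refine List.map_congr_left fun c hc => ?_
  funext r
  simp [U, h c hc, th]

lemma th_plucker (W : ℕ → Fin k → ℚ) (v : Vert k w) :
    th W (plucker v) = (Matrix.of fun r t : Fin k => W (rc v t) r).det := by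
  unfold plucker
  rw [RingHom.map_det]
  congr 1
  ext r t
  simp [th, rectCol_val]

lemma rc_strictMono (v : Vert k w) : StrictMono fun t : Fin k => rc v t := by
  intro s t hst
  have : (s : ℕ) < t := hst
  rcases v with _ | ⟨i, j⟩
  · simp only [rc]; omega
  · simp only [rc]; split_ifs <;> omega

lemma th_mom_pos (v : Vert k w) : 0 < th (mom k) (plucker v) := by
  rw [th_plucker, ← Matrix.det_transpose]
  have : (Matrix.of fun r t : Fin k => mom k (rc v t) r).transpose =
      Matrix.vandermonde fun t : Fin k => ((rc v t : ℕ) : ℚ) := by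
    ext r t; simp [mom, Matrix.vandermonde_apply]
  rw [this, Matrix.det_vandermonde]
  refine Finset.prod_pos fun s _ => Finset.prod_pos fun t ht => ?_
  have := rc_strictMono v (Finset.mem_Ioi.mp ht)
  simp only at this
  rw [sub_pos]
  exact_mod_cast this

lemma prime_plucker (hk : 0 < k) (v : Vert k w) : Prime (plucker v) := by
  obtain ⟨k, rfl⟩ : ∃ l, k = l + 1 := ⟨k - 1, by omega⟩
  refine prime_det k id (rectCol v) Function.injective_id fun s t hst => ?_
  apply (rc_strictMono v).injective
  simp only [← rectCol_val, hst]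

lemma not_dvd_of_col (v u : Vert k w) (t : Fin k) (h : ∀ s : Fin k, rc u s ≠ rc v t) :
    ¬ plucker v ∣ plucker u := by
  rintro ⟨c, hc⟩
  let W : ℕ → Fin k → ℚ := Function.update (mom k) (rc v t) 0
  have h1 : th W (plucker v) = 0 := by
    rw [th_plucker]
    exact Matrix.det_eq_zero_of_column_eq_zero t fun r => by simp [W]
  have h2 : th W (plucker u) = th (mom k) (plucker u) := by
    rw [th_plucker, th_plucker]
    congr 1
    ext r s
    simp [W, Function.update_of_ne (h s)]
  have h3 := th_mom_pos u
  rw [← h2, hc, map_mul, h1, zero_mul] at h3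
  exact lt_irrefl _ h3

lemma not_dvd_plucker (hk : 0 < k) (v u : Vert k w) (huv : u ≠ v) : ¬ plucker v ∣ plucker u := by
  have symm : ∀ v u : Vert k w, ¬ plucker u ∣ plucker v → ¬ plucker v ∣ plucker u :=
    fun v u h h' => h (((prime_plucker hk v).associated_of_dvd (prime_plucker hk u) h').symm.dvd)
  have a1 : ∀ (i : Fin k) (j : Fin (w + 1)), ¬ plucker (some (i, j)) ∣ plucker (none : Vert k w) := by
    intro i j
    refine not_dvd_of_col _ _ ⟨0, hk⟩ fun s => ?_
    simp only [rc]; split_ifs <;> omega
  have a2 : ∀ (i i' : Fin k) (j j' : Fin (w + 1)), (j' : ℕ) < j →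
      ¬ plucker (some (i, j)) ∣ plucker (some (i', j') : Vert k w) := by
    intro i i' j j' hj
    refine not_dvd_of_col _ _ ⟨0, hk⟩ fun s => ?_
    simp only [rc]; split_ifs <;> omega
  have a3 : ∀ (i i' : Fin k) (j : Fin (w + 1)), (i' : ℕ) < i →
      ¬ plucker (some (i, j)) ∣ plucker (some (i', j) : Vert k w) := by
    intro i i' j hi
    refine not_dvd_of_col _ _ ⟨i' + 1, by omega⟩ fun s => ?_
    simp only [rc]; split_ifs <;> omega
  rcases v with _ | ⟨i, j⟩ <;> rcases u with _ | ⟨i', j'⟩
  · exact absurd rfl huv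
  · exact symm _ _ (a1 i' j')
  · exact a1 i j
  · rcases lt_trichotomy (j' : ℕ) j with h | h | h
    · exact a2 i i' j j' h
    · have : j' = j := Fin.ext h
      subst this
      rcases lt_trichotomy (i' : ℕ) i with h | h | h
      · exact a3 i i' j' h
      · exact absurd (by rw [Fin.ext h]) huv
      · exact symm _ _ (a3 i' i j' h)
    · exact symm _ _ (a2 i' i j' j h)

lemma prod2 {ι M : Type} [Fintype ι] [DecidableEq ι] [CommMonoid M] (x : ι → M) (e : ι → ℕ)
    (a b : ι) (h : ∀ v, e v = (if v = a then 1 else 0) + (if v = b then 1 else 0)) :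
    ∏ v, x v ^ e v = x a * x b := by
  simp only [h, pow_add, Finset.prod_mul_distrib, pow_ite, pow_one, pow_zero,
    Finset.prod_ite_eq', Finset.mem_univ, if_true]

lemma prod3 {ι M : Type} [Fintype ι] [DecidableEq ι] [CommMonoid M] (x : ι → M) (e : ι → ℕ)
    (a b c : ι) (h : ∀ v, e v = (if v = a then 1 else 0) + (if v = b then 1 else 0) +
      (if v = c then 1 else 0)) : ∏ v, x v ^ e v = x a * x b * x c := by
  simp only [h, pow_add, Finset.prod_mul_distrib, pow_ite, pow_one, pow_zero,
    Finset.prod_ite_eq', Finset.mem_univ, if_true]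

def BB (k w : ℕ) : Vert k w → Vert k w → ℤ := fun u v => arrows u v - arrows v u

def Good (v : Vert k w) : Prop := ∃ y : Poly k w,
  ∏ u, plucker u ^ (BB k w u v).toNat + ∏ u, plucker u ^ (-BB k w u v).toNat = plucker v * y ∧
    ¬ plucker v ∣ y

lemma not_dvd_D (v : Vert k w) (t : Fin k) (L : List ℕ) (hl : L.length = k) (hn : L.Nodup)
    (hb : ∀ c ∈ L, c < w + k + 1) (h : rc v t ∉ L) : ¬ plucker v ∣ D (L.map (U k w)) := by
  rintro ⟨c, hc⟩
  let W : ℕ → Fin k → ℚ := Function.update (mom k) (rc v t) 0
  have h1 : th W (plucker v) = 0 := by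
    rw [th_plucker]
    exact Matrix.det_eq_zero_of_column_eq_zero t fun r => by simp [W]
  have h2 : L.map W = L.map (mom k) := List.map_congr_left fun c hc => by
    have : c ≠ rc v t := fun e => h (e ▸ hc)
    simp [W, Function.update_of_ne this]
  have h3 := D_mom_ne L hl hn
  rw [← h2, ← th_D W L hb, hc, map_mul, h1, zero_mul] at h3
  exact h3 rfl

lemma good_top (l s j : ℕ) (hk : k = 2 + l) (hw : w = j + 1 + s) (vin : Vert k w)
    (hvin : ∀ t, rc vin t = if t ≤ 0 then s + 2 else w + 1 + t)
    (hB : ∀ u : Vert k w, (BB k w u (some (⟨0, by omega⟩, ⟨j, by omega⟩))).toNat =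
      (if u = vin then 1 else 0) + (if u = some (⟨1, by omega⟩, ⟨j + 1, by omega⟩) then 1 else 0)) :
    Good (some (⟨0, by omega⟩, ⟨j, by omega⟩) : Vert k w) := by
  let C := List.range' (w + 3) l
  refine ⟨D ((s :: (s + 2) :: C).map (U k w)), ?_, ?_⟩
  · rw [prod2 _ _ _ _ hB, prod2 _ _ (some (⟨0, by omega⟩, ⟨j + 1, by omega⟩))
      (some (⟨1, by omega⟩, ⟨j, by omega⟩))]
    · rw [plucker_eq vin ((s + 2) :: (w + 2) :: C) (by simp [C]; omega),
        plucker_eq (some (⟨1, by omega⟩, ⟨j + 1, by omega⟩)) (s :: (s + 1) :: C)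
          (by simp [C]; omega),
        plucker_eq (some (⟨0, by omega⟩, ⟨j + 1, by omega⟩)) (s :: (w + 2) :: C)
          (by simp [C]; omega),
        plucker_eq (some (⟨1, by omega⟩, ⟨j, by omega⟩)) ((s + 1) :: (s + 2) :: C)
          (by simp [C]; omega),
        plucker_eq (some (⟨0, by omega⟩, ⟨j, by omega⟩)) ((s + 1) :: (w + 2) :: C)
          (by simp [C]; omega)]
      · have := D_plucker [] (C.map (U k w)) (U k w s) (U k w (s + 1)) (U k w (s + 2))
          (U k w (w + 2)) (by simp; omega)
        simp only [List.nil_append, List.map_cons] at this ⊢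
        linear_combination -this
      all_goals
        intro t ht
        try simp only [hvin]
        simp only [rc, C, List.getElem_cons, List.getElem_range']
        split_ifs <;> omega
    · rintro (_ | ⟨a, b⟩)
      · simp only [BB, arrows]
        split_ifs <;> simp_all
      · simp only [BB, arrows, Option.some.injEq, Prod.mk.injEq, Fin.ext_iff]
        split_ifs <;> first | omega | grind
  · refine not_dvd_D _ ⟨0, by omega⟩ _ (by simp [C]; omega) ?_ ?_ ?_
    · simp [C, List.nodup_range']; grind
    · simp [C]; grind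
    · simp [C, rc]; omega

lemma good_side (l i : ℕ) (s : ℕ) (hk : k = i + 3 + l) (hw : w = 1 + s) :
    Good (some (⟨i + 1, by omega⟩, ⟨0, by omega⟩) : Vert k w) := by
  let C1 := List.range' (s + 2) i
  let C2 := List.range' (s + 5 + i) l
  refine ⟨D ((C1 ++ s :: (s + 1) :: (s + 3 + i) :: C2).map (U k w)), ?_, ?_⟩
  · rw [prod2 _ _ (some (⟨i, by omega⟩, ⟨0, by omega⟩)) (some (⟨i + 2, by omega⟩, ⟨1, by omega⟩)),
      prod2 _ _ (some (⟨i + 1, by omega⟩, ⟨1, by omega⟩))
        (some (⟨i + 2, by omega⟩, ⟨0, by omega⟩))]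
    · rw [plucker_eq (some (⟨i, by omega⟩, ⟨0, by omega⟩))
          ((s + 1) :: (C1 ++ (s + 3 + i) :: (s + 4 + i) :: C2)) (by simp [C1, C2]; omega),
        plucker_eq (some (⟨i + 2, by omega⟩, ⟨1, by omega⟩))
          (s :: (s + 1) :: (C1 ++ (s + 2 + i) :: C2)) (by simp [C1, C2]; omega),
        plucker_eq (some (⟨i + 1, by omega⟩, ⟨1, by omega⟩))
          (s :: (s + 1) :: (C1 ++ (s + 4 + i) :: C2)) (by simp [C1, C2]; omega),
        plucker_eq (some (⟨i + 2, by omega⟩, ⟨0, by omega⟩))
          ((s + 1) :: (C1 ++ (s + 2 + i) :: (s + 3 + i) :: C2)) (by simp [C1, C2]; omega),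
        plucker_eq (some (⟨i + 1, by omega⟩, ⟨0, by omega⟩))
          ((s + 1) :: (C1 ++ (s + 2 + i) :: (s + 4 + i) :: C2)) (by simp [C1, C2]; omega)]
      · have := D_side (C1.map (U k w)) (C2.map (U k w)) (U k w s) (U k w (s + 1))
          (U k w (s + 2 + i)) (U k w (s + 3 + i)) (U k w (s + 4 + i)) (by simp [C1]; omega)
        simpa only [List.map_cons, List.map_append] using this
      all_goals
        intro t ht
        simp only [rc, C1, C2, List.getElem_cons, List.getElem_append, List.getElem_range',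
          List.length_range']
        split_ifs <;> omega
    all_goals
      rintro (_ | ⟨a, b⟩)
      · simp only [BB, arrows]
        split_ifs <;> simp_all
      · simp only [BB, arrows, Option.some.injEq, Prod.mk.injEq, Fin.ext_iff]
        split_ifs <;> first | omega | grind
  · refine not_dvd_D _ ⟨i + 2, by omega⟩ _ (by simp [C1, C2]; omega) ?_ ?_ ?_
    · simp [C1, C2, List.nodup_append, List.nodup_range']; grind
    · simp [C1, C2]; grind
    · simp [C1, C2, rc]; omega

lemma good_hex (l i j s : ℕ) (hk : k = i + 3 + l) (hw : w = j + 2 + s) :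
    Good (some (⟨i + 1, by omega⟩, ⟨j + 1, by omega⟩) : Vert k w) := by
  let C1 := List.range' (s + 2) i
  let C2 := List.range' (s + 6 + i + j) l
  refine ⟨D ((C1 ++ s :: (s + 1) :: (s + 3 + i) :: C2).map (U k w)) *
      D ((C1 ++ (s + 2 + i) :: (s + 4 + i + j) :: (s + 5 + i + j) :: C2).map (U k w)) -
      D ((C1 ++ s :: (s + 1) :: (s + 2 + i) :: C2).map (U k w)) *
      D ((C1 ++ (s + 3 + i) :: (s + 4 + i + j) :: (s + 5 + i + j) :: C2).map (U k w)), ?_, ?_⟩
  · rw [prod3 _ _ (some (⟨i + 1, by omega⟩, ⟨j, by omega⟩))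
        (some (⟨i, by omega⟩, ⟨j + 1, by omega⟩)) (some (⟨i + 2, by omega⟩, ⟨j + 2, by omega⟩)),
      prod3 _ _ (some (⟨i + 1, by omega⟩, ⟨j + 2, by omega⟩))
        (some (⟨i + 2, by omega⟩, ⟨j + 1, by omega⟩)) (some (⟨i, by omega⟩, ⟨j, by omega⟩))]
    · rw [plucker_eq (some (⟨i + 1, by omega⟩, ⟨j, by omega⟩))
          (C1 ++ (s + 2 + i) :: (s + 3 + i) :: (s + 5 + i + j) :: C2) (by simp [C1, C2]; omega),
        plucker_eq (some (⟨i, by omega⟩, ⟨j + 1, by omega⟩))
          ((s + 1) :: (C1 ++ (s + 4 + i + j) :: (s + 5 + i + j) :: C2)) (by simp [C1, C2]; omega),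
        plucker_eq (some (⟨i + 2, by omega⟩, ⟨j + 2, by omega⟩))
          (s :: (s + 1) :: (C1 ++ (s + 2 + i) :: C2)) (by simp [C1, C2]; omega),
        plucker_eq (some (⟨i + 1, by omega⟩, ⟨j + 2, by omega⟩))
          (s :: (s + 1) :: (C1 ++ (s + 5 + i + j) :: C2)) (by simp [C1, C2]; omega),
        plucker_eq (some (⟨i + 2, by omega⟩, ⟨j + 1, by omega⟩))
          ((s + 1) :: (C1 ++ (s + 2 + i) :: (s + 3 + i) :: C2)) (by simp [C1, C2]; omega),
        plucker_eq (some (⟨i, by omega⟩, ⟨j, by omega⟩))
          (C1 ++ (s + 2 + i) :: (s + 4 + i + j) :: (s + 5 + i + j) :: C2) (by simp [C1, C2]; omega),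
        plucker_eq (some (⟨i + 1, by omega⟩, ⟨j + 1, by omega⟩))
          ((s + 1) :: (C1 ++ (s + 2 + i) :: (s + 5 + i + j) :: C2)) (by simp [C1, C2]; omega)]
      · have := D_hex (C1.map (U k w)) (C2.map (U k w)) (U k w s) (U k w (s + 1))
          (U k w (s + 2 + i)) (U k w (s + 3 + i)) (U k w (s + 4 + i + j)) (U k w (s + 5 + i + j))
          (by simp [C1]; omega)
        simpa only [List.map_cons, List.map_append] using this
      all_goals
        intro t ht
        simp only [rc, C1, C2, List.getElem_cons, List.getElem_append, List.getElem_range',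
          List.length_range']
        split_ifs <;> omega
    all_goals
      rintro (_ | ⟨a, b⟩)
      · simp only [BB, arrows]
        split_ifs <;> simp_all
      · simp only [BB, arrows, Option.some.injEq, Prod.mk.injEq, Fin.ext_iff]
        split_ifs <;> first | omega | grind
  · rintro ⟨c, hc⟩
    let W : ℕ → Fin k → ℚ := Function.update (mom k) (s + 2 + i) (mom k (s + 1))
    have hW : ∀ L : List ℕ, s + 2 + i ∉ L → L.map W = L.map (mom k) := fun L h =>
      List.map_congr_left fun c hc => by
        have : c ≠ s + 2 + i := fun e => h (e ▸ hc)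
        simp [W, Function.update_of_ne this]
    have h1 : th W (plucker (some (⟨i + 1, by omega⟩, ⟨j + 1, by omega⟩) : Vert k w)) = 0 := by
      rw [th_plucker]
      refine Matrix.det_zero_of_column_eq (i := ⟨0, by omega⟩) (j := ⟨i + 1, by omega⟩)
        (by simp [Fin.ext_iff]) fun r => ?_
      simp only [Matrix.of_apply, rc, Nat.zero_le, le_refl, if_true]
      rw [show w - (j + 1) + 0 = s + 1 by omega, show w - (j + 1) + (i + 1) = s + 2 + i by omega]
      simp only [W, Function.update_self]
      rw [Function.update_of_ne (by omega)]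
    have h2 := congrArg (th W) hc
    rw [map_mul, h1, zero_mul, map_sub, map_mul, map_mul, th_D, th_D, th_D, th_D] at h2
    · have z : D ((C1 ++ s :: (s + 1) :: (s + 2 + i) :: C2).map W) = 0 := by
        refine D_dup _ ⟨i + 1, by omega⟩ ⟨i + 2, by omega⟩ (by simp [Fin.ext_iff]) ?_
        simp only [List.getD_eq_getElem?_getD, List.map_append, List.map_cons]
        rw [List.getElem?_append_right (by simp [C1]), List.getElem?_append_right (by simp [C1])]
        simp only [C1, List.length_map, List.length_range', show i + 1 - i = 1 by omega,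
          show i + 2 - i = 2 by omega]
        simp only [List.getElem?_cons_succ, List.getElem?_cons_zero, Option.getD_some, W,
          Function.update_self]
        rw [Function.update_of_ne (by omega)]
      have e : (C1 ++ (s + 2 + i) :: (s + 4 + i + j) :: (s + 5 + i + j) :: C2).map W =
          (C1 ++ (s + 1) :: (s + 4 + i + j) :: (s + 5 + i + j) :: C2).map (mom k) := by
        rw [List.map_append, List.map_append, List.map_cons, List.map_cons (a := s + 1),
          hW C1 (by simp [C1]), hW _ (by simp [C2]; omega)]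
        simp [W]
      rw [z, zero_mul, sub_zero, e, hW _ (by simp [C1, C2]; omega)] at h2
      refine mul_ne_zero (D_mom_ne _ (by simp [C1, C2]; omega) ?_)
        (D_mom_ne _ (by simp [C1, C2]; omega) ?_) h2
      · simp [C1, C2, List.nodup_append, List.nodup_range']; grind
      · simp [C1, C2, List.nodup_append, List.nodup_range']; grind
    all_goals
      simp [C1, C2]; grind

lemma good_all (v : Vert k w) (hv : Mutable v) : Good v := by
  rcases v with _ | ⟨⟨i, hi⟩, ⟨j, hj⟩⟩
  · exact hv.elim
  · simp only [Mutable] at hv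
    rcases i with _ | i
    · rcases j with _ | j
      · refine good_top (k - 2) (w - 1) 0 (by omega) (by omega) none (fun t => ?_) ?_
        · simp only [rc]; split_ifs <;> omega
        · rintro (_ | ⟨a, b⟩)
          · simp [BB, arrows]
          · simp only [BB, arrows, Option.some.injEq, Prod.mk.injEq, Fin.ext_iff, reduceCtorEq]
            split_ifs <;> first | omega | grind
      · refine good_top (k - 2) (w - j - 2) (j + 1) (by omega) (by omega)
          (some (⟨0, by omega⟩, ⟨j, by omega⟩)) (fun t => ?_) ?_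
        · simp only [rc]; split_ifs <;> omega
        · rintro (_ | ⟨a, b⟩)
          · simp [BB, arrows]
          · simp only [BB, arrows, Option.some.injEq, Prod.mk.injEq, Fin.ext_iff]
            split_ifs <;> first | omega | grind
    · rcases j with _ | j
      · exact good_side (k - i - 3) i (w - 1) (by omega) (by omega)
      · exact good_hex (k - i - 3) i j (w - j - 2) (by omega) (by omega)

end Pool.Agent.H457Z.Clu
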