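import Pool.Agent.H457Z.Clu.Defs
import Pool.Agent.H457Z.Clu.Det

set_option autoImplicit false

namespace Pool.Agent.H457Z.Clu

open Matrix

variable {k : ℕ}

lemma D_map_eq {α A : Type} [CommRing A] (f : α → Fin k → A) (L : List α) (g : ℕ → α)
    (hl : L.length = k) (h : ∀ t (ht : t < L.length), L[t] = g t) :
    D (L.map f) = (Matrix.of fun r t : Fin k => f (g t) r).det := by
  unfold D
  congr 1
  ext1 r t
  have ht : (t : ℕ) < L.length := by omega
  simp only [colM, Matrix.of_apply, List.getD_eq_getElem?_getD, List.getElem?_map,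
    List.getElem?_eq_getElem ht, Option.map_some, Option.getD_some, h t ht]

def blk (f : ℤ → Fin k → ℚ) (i : ℤ) (m : ℕ) : List (Fin k → ℚ) :=
  (List.range m).map fun t : ℕ => f (i + t)

@[simp] lemma blk_length (f : ℤ → Fin k → ℚ) (i : ℤ) (m : ℕ) : (blk f i m).length = m := by
  simp [blk]

lemma blk_succ (f : ℤ → Fin k → ℚ) (i : ℤ) (m : ℕ) :
    blk f i (m + 1) = blk f i m ++ [f (i + m)] := by
  simp [blk, List.range_succ]

lemma blk_cons (f : ℤ → Fin k → ℚ) (i : ℤ) (m : ℕ) :
    blk f i (m + 1) = f i :: blk f (i + 1) m := by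
  simp only [blk, List.range_succ_eq_map, List.map_cons, List.map_map, Nat.cast_zero, add_zero]
  congr 1
  refine List.map_congr_left fun t _ => ?_
  simp only [Function.comp, Nat.succ_eq_add_one]
  congr 1
  push_cast; ring

lemma blk_add (f : ℤ → Fin k → ℚ) (i : ℤ) (m p : ℕ) :
    blk f i (m + p) = blk f i m ++ blk f (i + m) p := by
  induction p with
  | zero => simp [blk]
  | succ p ih =>
    rw [← add_assoc, blk_succ, ih, blk_succ, List.append_assoc]
    congr 3
    push_cast; ring

lemma blk_getD (f : ℤ → Fin k → ℚ) (i : ℤ) (m t : ℕ) (ht : t < m) (q : List (Fin k → ℚ)) :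
    (blk f i m ++ q).getD t 0 = f (i + t) := by
  rw [List.getD_eq_getElem?_getD, List.getElem?_append_left (by simpa using ht)]
  simp [blk, ht]

lemma D_blk (f : ℤ → Fin k → ℚ) (i : ℤ) :
    D (blk f i k) = (Matrix.of fun r t : Fin k => f (i + (t : ℕ)) r).det :=
  D_map_eq (fun t : ℕ => f (i + t)) (List.range k) id (by simp) (by simp)

noncomputable def phi (hk : 0 < k) (f : ℤ → Fin k → ℚ) (i : ℤ) : (Fin k → ℚ) →ₗ[ℚ] ℚ :=
  (LinearMap.proj (⟨(blk f (i + 1) (k - 1)).length, by simp; omega⟩ : Fin k)).comp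
    (cramer (colM (blk f (i + 1) (k - 1) ++ [0])))

lemma phi_eq (hk : 0 < k) (f : ℤ → Fin k → ℚ) (i : ℤ) (x : Fin k → ℚ) :
    phi hk f i x = D (blk f (i + 1) (k - 1) ++ [x]) := by
  rw [D_cramer _ [] x 0 (by simp; omega)]
  rfl

lemma phi_det (hk : 0 < k) (f : ℤ → Fin k → ℚ) (i c : ℤ) :
    phi hk f i (f c) = (Matrix.of fun r t : Fin k =>
      f (if (t : ℕ) + 1 < k then i + 1 + (t : ℕ) else c) r).det := by
  rw [phi_eq, ← D_map_eq f ((List.range (k - 1)).map (fun t : ℕ => i + 1 + t) ++ [c])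
    (fun t => if t + 1 < k then i + 1 + t else c) (by simp; omega)]
  · simp [blk, Function.comp_def]
  · intro t ht
    simp only [List.getElem_append, List.length_map, List.length_range, List.getElem_map,
      List.getElem_range, List.getElem_singleton]
    split_ifs <;> first | rfl | omega

lemma phi_dup (hk : 0 < k) (f : ℤ → Fin k → ℚ) (i c : ℤ) (h1 : i + 1 ≤ c) (h2 : c < i + k) :
    phi hk f i (f c) = 0 := by
  rw [phi_eq]
  refine D_dup _ ⟨(c - i - 1).toNat, by omega⟩ ⟨k - 1, by omega⟩ (by simp [Fin.ext_iff]; omega) ?_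
  rw [blk_getD _ _ _ _ (by simp only; omega)]
  rw [List.getD_eq_getElem?_getD, List.getElem?_append_right (by simp)]
  simp only [blk_length, Nat.sub_self, List.getElem?_cons_zero, Option.getD_some]
  congr 1
  omega

lemma phi_next (hk : 0 < k) (f : ℤ → Fin k → ℚ) (i : ℤ) :
    phi hk f i (f (i + k)) = D (blk f (i + 1) k) := by
  rw [phi_eq]
  have := blk_succ f (i + 1) (k - 1)
  rw [show i + 1 + ((k - 1 : ℕ) : ℤ) = i + k by omega] at this
  rw [← this]
  congr 2
  omega

lemma phi_prev (hk : 0 < k) (f : ℤ → Fin k → ℚ) (i : ℤ) :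
    (-1) ^ (k - 1) * phi hk f i (f i) = D (blk f i k) := by
  rw [phi_eq]
  have h1 := D_move (blk f (i + 1) (k - 1)) [] [] (f i) (by simp; omega)
  simp only [List.nil_append, List.append_nil, blk_length] at h1
  rw [← h1, ← blk_cons]
  congr 2
  omega

lemma D_rot (P : List (Fin k → ℚ)) : ∀ Q : List (Fin k → ℚ), P.length + Q.length = k →
    D (P ++ Q) = D (Q ++ P.map fun x => ((-1 : ℚ) ^ (k - 1)) • x) := by
  induction P with
  | nil => intro Q _; simp
  | cons x P ih =>
    intro Q h
    simp only [List.length_cons] at h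
    have h1 := D_move (P ++ Q) [] [] x (by simp; omega)
    simp only [List.nil_append, List.append_nil, List.length_append] at h1
    rw [show P.length + Q.length = k - 1 by omega] at h1
    have h2 := ih (Q ++ [((-1 : ℚ) ^ (k - 1)) • x]) (by simp; omega)
    rw [List.cons_append, h1, List.map_cons]
    simp only [List.append_assoc, List.cons_append, List.nil_append] at h2 ⊢
    rw [← h2, ← List.append_assoc, ← List.append_assoc,
      D_cramer (P ++ Q) [] x 0 (by simp; omega), D_cramer (P ++ Q) [] _ 0 (by simp; omega),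
      map_smul, Pi.smul_apply, smul_eq_mul]

lemma lin_apply (f : (Fin k → ℚ) →ₗ[ℚ] ℚ) (x : Fin k → ℚ) :
    f x = ∑ s, f (Pi.single s 1) * x s := by
  rw [LinearMap.pi_apply_eq_sum_univ]
  refine Finset.sum_congr rfl fun s _ => ?_
  rw [smul_eq_mul, mul_comm]
  congr 2
  funext j
  simp [Pi.single_apply, eq_comm]

variable {w : ℕ}

lemma col_nat (A : Matrix (Fin k) (Fin (w + k + 1)) ℚ) (c : Fin (w + k + 1)) (r : Fin k) :
    col A (c : ℕ) r = A r c := by
  have h1 : ((c : ℕ) : ℤ) / (w + k + 1 : ℕ) = 0 :=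
    Int.ediv_eq_zero_of_lt (by omega) (by have := c.2; omega)
  have h2 : ((c : ℕ) : ℤ) % (w + k + 1 : ℕ) = (c : ℕ) :=
    Int.emod_eq_of_lt (by omega) (by have := c.2; omega)
  simp only [col, h1, h2, mul_zero, zpow_zero, one_mul, Int.toNat_natCast]

lemma col_per (hk : 0 < k) (A : Matrix (Fin k) (Fin (w + k + 1)) ℚ) (j : ℤ) :
    col A (j + (w + k + 1 : ℕ)) = ((-1 : ℚ) ^ (k - 1)) • col A j := by
  funext r
  have h1 : (j + (w + k + 1 : ℕ)) / (w + k + 1 : ℕ) = j / (w + k + 1 : ℕ) + 1 := by
    have := Int.add_mul_ediv_right j 1 (c := ((w + k + 1 : ℕ) : ℤ)) (by omega)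
    simpa using this
  simp only [col, h1, Int.add_emod_right, Pi.smul_apply, smul_eq_mul]
  rw [mul_add, zpow_add₀ (by norm_num), mul_one, show ((k : ℤ) - 1) = ((k - 1 : ℕ) : ℤ) by omega,
    zpow_natCast]
  ring

section Exist

variable {M : ℤ → ℤ → ℚ}

lemma uniq_last (hM : IsFrieze k w M) (i0 j0 : ℤ) (c : Fin (k + 1) → ℚ) (hl : c (Fin.last k) = 0)
    (h : ∀ b : Fin k, ∑ a : Fin (k + 1), c a * M (i0 + (a : ℕ)) (j0 + (b : ℕ)) = 0) : c = 0 := by
  have h1 : (fun a : Fin k => c a.castSucc) = 0 := by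
    refine eq_zero_of_vecMul_eq_zero (M := Matrix.of fun a b : Fin k =>
      M (i0 + (a : ℕ)) (j0 + (b : ℕ))) (by have := hM.sl i0 j0; unfold adjMinor at this; simp [this]) ?_
    funext b
    have := h b
    rw [Fin.sum_univ_castSucc, hl] at this
    simpa [vecMul, dotProduct] using this
  funext a
  refine Fin.lastCases hl (fun a => ?_) a
  exact congrFun h1 a

lemma uniq_zero (hM : IsFrieze k w M) (i0 j0 : ℤ) (c : Fin (k + 1) → ℚ) (hl : c 0 = 0)
    (h : ∀ b : Fin k, ∑ a : Fin (k + 1), c a * M (i0 + (a : ℕ)) (j0 + (b : ℕ)) = 0) : c = 0 := by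
  have h1 : (fun a : Fin k => c a.succ) = 0 := by
    refine eq_zero_of_vecMul_eq_zero (M := Matrix.of fun a b : Fin k =>
      M (i0 + 1 + (a : ℕ)) (j0 + (b : ℕ)))
      (by have := hM.sl (i0 + 1) j0; unfold adjMinor at this; simp [this]) ?_
    funext b
    have := h b
    rw [Fin.sum_univ_succ, hl] at this
    simp only [zero_mul, zero_add, Fin.val_succ] at this
    simp only [vecMul, dotProduct, of_apply, Pi.zero_apply]
    rw [← this]
    refine Finset.sum_congr rfl fun a _ => ?_
    congr 2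
    push_cast; ring
  funext a
  refine Fin.cases hl (fun a => ?_) a
  exact congrFun h1 a

lemma window (hM : IsFrieze k w M) (i0 j0 : ℤ) : ∃ c : Fin (k + 1) → ℚ, c (Fin.last k) = 1 ∧
    ∀ b : Fin (k + 1), ∑ a : Fin (k + 1), c a * M (i0 + (a : ℕ)) (j0 + (b : ℕ)) = 0 := by
  obtain ⟨c, hc0, hc⟩ := exists_vecMul_eq_zero_iff.mpr (hM.tame i0 j0)
  have h : ∀ b : Fin (k + 1), ∑ a : Fin (k + 1), c a * M (i0 + (a : ℕ)) (j0 + (b : ℕ)) = 0 :=
    fun b => by simpa [vecMul, dotProduct] using congrFun hc b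
  have hl : c (Fin.last k) ≠ 0 := fun e => hc0 (uniq_last hM i0 j0 c e fun b => h b.castSucc)
  refine ⟨fun a => c a / c (Fin.last k), div_self hl, fun b => ?_⟩
  have := congrArg (fun x => x / c (Fin.last k)) (h b)
  simp only [Finset.sum_div, zero_div] at this
  rw [← this]
  exact Finset.sum_congr rfl fun a _ => by ring

lemma relation (hM : IsFrieze k w M) (i0 : ℤ) : ∃ c : Fin (k + 1) → ℚ, c (Fin.last k) = 1 ∧
    c 0 ≠ 0 ∧ ∀ j, ∑ a : Fin (k + 1), c a * M (i0 + (a : ℕ)) j = 0 := by
  choose c hc1 hc2 using window hM i0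
  have step : ∀ j, c (j + 1) = c j := by
    intro j
    rw [← sub_eq_zero]
    refine uniq_last hM i0 (j + 1) _ (by simp [hc1]) fun b => ?_
    have h1 := hc2 (j + 1) b.castSucc
    have h2 := hc2 j b.succ
    simp only [Fin.val_succ, Fin.val_castSucc] at h1 h2
    rw [show j + ((b + 1 : ℕ) : ℤ) = j + 1 + (b : ℕ) by push_cast; ring] at h2
    simp only [Pi.sub_apply, sub_mul, Finset.sum_sub_distrib, h1, h2, sub_zero]
  have all : ∀ j, c j = c 0 := by
    intro j
    induction j using Int.induction_on with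
    | zero => rfl
    | succ n ih => rw [step, ih]
    | pred n ih => rw [← ih, ← step (-(n : ℤ) - 1)]; congr 1; ring
  refine ⟨c 0, hc1 0, fun e => ?_, fun j => ?_⟩
  · have := uniq_zero hM i0 0 (c 0) e fun b => hc2 0 b.castSucc
    have h1 := hc1 0
    rw [this] at h1
    simp at h1
  · have := hc2 j 0
    rw [all j] at this
    simpa using this

lemma rows_span (hM : IsFrieze k w M) (hk : 0 < k) (i : ℤ) :
    ∃ l : Fin k → ℚ, ∀ j, M i j = ∑ r : Fin k, l r * M (-k + (r : ℕ)) j := by
  let S := Submodule.span ℚ (Set.range fun r : Fin k => M (-k + (r : ℕ)))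
  have key : ∀ d : ℤ, ∀ a : ℕ, a < k → M (-k + d + a) ∈ S := by
    intro d
    induction d using Int.induction_on with
    | zero => intro a ha; exact Submodule.subset_span ⟨⟨a, ha⟩, by simp⟩
    | succ n ih =>
      intro a ha
      by_cases h : a + 1 < k
      · have := ih (a + 1) h
        rwa [show -(k : ℤ) + n + ((a + 1 : ℕ) : ℤ) = -k + (n + 1) + a by push_cast; ring] at this
      · obtain ⟨c, hc, -, h2⟩ := relation hM (-k + n)
        have e : M (-k + (n + 1) + a) = -∑ b : Fin k, c b.castSucc • M (-k + n + (b : ℕ)) := by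
          funext j
          have := h2 j
          rw [Fin.sum_univ_castSucc, hc, Fin.val_last] at this
          rw [show -(k : ℤ) + (n + 1) + a = -k + n + k by omega]
          simp only [Pi.neg_apply, Finset.sum_apply, Pi.smul_apply, smul_eq_mul]
          simp only [Fin.val_castSucc] at this
          linarith
        rw [e]
        exact neg_mem (sum_mem fun b _ => S.smul_mem _ (ih b b.2))
    | pred n ih =>
      intro a ha
      rcases a with _ | a
      · obtain ⟨c, -, hc, h2⟩ := relation hM (-k + (-n - 1))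
        have e : M (-k + (-n - 1) + (0 : ℕ)) =
            -(c 0)⁻¹ • ∑ b : Fin k, c b.succ • M (-k + -n + (b : ℕ)) := by
          funext j
          have := h2 j
          rw [Fin.sum_univ_succ] at this
          simp only [Pi.smul_apply, Finset.sum_apply, smul_eq_mul]
          have e2 : ∑ b : Fin k, c b.succ * M (-k + (-n - 1) + ((b.succ : Fin (k + 1)) : ℕ)) j =
              ∑ b : Fin k, c b.succ * M (-k + -n + (b : ℕ)) j :=
            Finset.sum_congr rfl fun b _ => by
              congr 2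
              simp only [Fin.val_succ]
              push_cast; ring
          rw [e2] at this
          simp only [Fin.val_zero] at this
          field_simp
          linarith
        rw [e]
        exact S.smul_mem _ (sum_mem fun b _ => S.smul_mem _ (ih b b.2))
      · have := ih a (by omega)
        rwa [show -(k : ℤ) + -n + a = -k + (-n - 1) + ((a + 1 : ℕ) : ℤ) by push_cast; ring] at this
  have := key (i + k) 0 hk
  rw [show -(k : ℤ) + (i + k) + (0 : ℕ) = i by simp] at this
  obtain ⟨l, hl⟩ := (Submodule.mem_span_range_iff_exists_fun ℚ).mp this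
  exact ⟨l, fun j => by rw [← hl]; simp [Finset.sum_apply]⟩

def vv (k : ℕ) (M : ℤ → ℤ → ℚ) (j : ℤ) : Fin k → ℚ := fun r => M (-k + (r : ℕ)) (j - k - 1)

lemma vv_det (hM : IsFrieze k w M) (i : ℤ) :
    (Matrix.of fun r t : Fin k => vv k M (i + (t : ℕ)) r).det = 1 := by
  rw [← hM.sl (-k) (i - k - 1)]
  unfold adjMinor vv
  congr 1
  ext r t
  simp only [of_apply]
  congr 1
  ring

lemma entry_eq (hM : IsFrieze k w M) (hk : 0 < k) (i j : ℤ) :
    M i j = phi hk (vv k M) i (vv k M (j + k + 1)) := by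
  obtain ⟨l, hl⟩ := rows_span hM hk i
  have h0 : (fun s => l s - phi hk (vv k M) i (Pi.single s 1)) = 0 := by
    refine eq_zero_of_vecMul_eq_zero (M := Matrix.of fun r t : Fin k =>
      vv k M (i + 1 + (t : ℕ)) r) (by rw [vv_det hM]; exact one_ne_zero) ?_
    funext t
    simp only [vecMul, dotProduct, of_apply, sub_mul, Finset.sum_sub_distrib, Pi.zero_apply]
    rw [← lin_apply, sub_eq_zero]
    have := hl (i + 1 + (t : ℕ) - k - 1)
    unfold vv
    rw [← this]
    by_cases ht : (t : ℕ) + 1 < k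
    · rw [hM.zero _ _ (Or.inl (by omega))]
      exact (phi_dup hk (vv k M) i _ (by omega) (by omega)).symm
    · rw [hM.one _ _ (Or.inl (by have := t.2; omega))]
      have e := phi_next hk (vv k M) i
      rw [D_blk, vv_det hM] at e
      rw [show i + 1 + ((t : ℕ) : ℤ) = i + k by have := t.2; omega]
      exact e.symm
  rw [lin_apply, hl]
  refine Finset.sum_congr rfl fun s _ => ?_
  have := congrFun h0 s
  simp only [Pi.zero_apply, sub_eq_zero] at this
  rw [this]
  unfold vv
  congr 2
  ring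

lemma vv_per (hM : IsFrieze k w M) (hk : 0 < k) (j : ℤ) :
    vv k M (j + (w + k + 1 : ℕ)) = ((-1 : ℚ) ^ (k - 1)) • vv k M j := by
  rw [← sub_eq_zero]
  let G : Matrix (Fin k) (Fin k) ℚ :=
    Matrix.of fun a s => phi hk (vv k M) (j - k + 1 + (a : ℕ)) (Pi.single s 1)
  have hG : G.det ≠ 0 := by
    intro h
    have e : G * (Matrix.of fun r t : Fin k => vv k M ((k + 1 : ℤ) + (t : ℕ)) r) =
        Matrix.of fun a b : Fin k => M (j - k + 1 + (a : ℕ)) (0 + (b : ℕ)) := by
      ext a b
      simp only [G, mul_apply, of_apply]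
      rw [← lin_apply, entry_eq hM hk]
      congr 2
      ring
    have := hM.sl (j - k + 1) 0
    unfold adjMinor at this
    rw [← e, det_mul, h] at this
    simp at this
  refine eq_zero_of_mulVec_eq_zero hG ?_
  funext a
  simp only [G, mulVec, dotProduct, of_apply, Pi.zero_apply]
  rw [← lin_apply, map_sub, map_smul, smul_eq_mul, sub_eq_zero]
  have e := entry_eq hM hk (j - k + 1 + (a : ℕ)) (j + w)
  rw [show j + w + k + 1 = j + (w + k + 1 : ℕ) by push_cast; ring] at e
  rw [← e]
  by_cases ha : (a : ℕ) + 1 < k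
  · rw [hM.zero _ _ (Or.inr (by omega)), phi_dup hk _ _ _ (by omega) (by omega), mul_zero]
  · rw [hM.one _ _ (Or.inr (by have := a.2; omega)),
      show j - k + 1 + ((a : ℕ) : ℤ) = j by have := a.2; omega, phi_prev, D_blk, vv_det hM]

theorem exists_corr (hM : IsFrieze k w M) (hk : 0 < k) :
    ∃ A : Matrix (Fin k) (Fin (w + k + 1)) ℚ, Corresponds A M := by
  let A : Matrix (Fin k) (Fin (w + k + 1)) ℚ := Matrix.of fun r c => vv k M (c : ℕ) r
  have h0 : ∀ j : ℤ, 0 ≤ j → j < (w + k + 1 : ℕ) → col A j = vv k M j := by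
    intro j h1 h2
    funext r
    have := col_nat A ⟨j.toNat, by omega⟩ r
    simp only [A, of_apply, Int.toNat_of_nonneg h1] at this
    exact this
  have hq : ∀ q : ℤ, ∀ j : ℤ, 0 ≤ j → j < (w + k + 1 : ℕ) →
      col A (j + q * (w + k + 1 : ℕ)) = vv k M (j + q * (w + k + 1 : ℕ)) := by
    intro q j h1 h2
    induction q using Int.induction_on with
    | zero => simpa using h0 j h1 h2
    | succ n ih => rw [add_mul, one_mul, ← add_assoc, col_per hk, vv_per hM hk, ih]
    | pred n ih =>
      have e : j + -(n : ℤ) * (w + k + 1 : ℕ) =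
          j + (-n - 1) * (w + k + 1 : ℕ) + (w + k + 1 : ℕ) := by ring
      rw [e, col_per hk, vv_per hM hk] at ih
      exact smul_right_injective _ (pow_ne_zero _ (by norm_num)) ih
  have hc : col A = vv k M := by
    funext j
    have := hq (j / (w + k + 1 : ℕ)) (j % (w + k + 1 : ℕ)) (Int.emod_nonneg _ (by omega))
      (Int.emod_lt_of_pos _ (by omega))
    rwa [Int.emod_add_ediv_mul] at this
  refine ⟨A, fun i => ?_, fun i j _ _ => ?_⟩
  · rw [hc]; exact vv_det hM i
  · rw [hc, ← phi_det hk]; exact entry_eq hM hk i j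

end Exist

end Pool.Agent.H457Z.Clu
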