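import Pool.Agent.H457Z.Clu.Mut

set_option autoImplicit false

namespace Pool.Agent.H457Z.Clu

variable {ι : Type} [Fintype ι] [DecidableEq ι]

def Skew (B : ι → ι → ℤ) : Prop := ∀ i j, B j i = -B i j

omit [Fintype ι] [DecidableEq ι] in
lemma Skew.diag {B : ι → ι → ℤ} (h : Skew B) (i : ι) : B i i = 0 := by
  have := h i i; omega

omit [Fintype ι] in
lemma Skew.mut {B : ι → ι → ℤ} (h : Skew B) (k : ι) : Skew (mutB B k) := by
  intro i j
  unfold mutB
  by_cases h1 : i = k ∨ j = k
  · rw [if_pos h1, if_pos h1.symm, h i j]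
  · rw [if_neg h1, if_neg (fun h2 => h1 h2.symm), h i j, h k j, h i k]
    simp only [neg_neg]
    ring

omit [Fintype ι] in
lemma mutB_mutB (B : ι → ι → ℤ) (k : ι) : mutB (mutB B k) k = B := by
  funext i j
  by_cases h1 : i = k ∨ j = k
  · simp [mutB, h1]
  · have hi : i ≠ k := fun h => h1 (Or.inl h)
    have hj : j ≠ k := fun h => h1 (Or.inr h)
    simp only [mutB, h1, if_false, or_true, true_or, if_true, neg_neg]
    ring

omit [Fintype ι] in
lemma mutB_neg (B : ι → ι → ℤ) (k : ι) : mutB (fun i j => -B i j) k = fun i j => -mutB B k i j := by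
  funext i j
  unfold mutB
  split_ifs
  · rfl
  · simp only [neg_neg]; ring

structure Pos {F : Type} [Field F] (P : F → Prop) : Prop where
  one : P 1
  add : ∀ a b, P a → P b → P (a + b)
  mul : ∀ a b, P a → P b → P (a * b)
  inv : ∀ a, P a → P a⁻¹
  ne : ¬ P 0

variable {F : Type} [Field F]

lemma Pos.ne_zero {P : F → Prop} (h : Pos P) {a : F} (ha : P a) : a ≠ 0 := fun e => h.ne (e ▸ ha)

lemma Pos.pow {P : F → Prop} (h : Pos P) {a : F} (ha : P a) (n : ℕ) : P (a ^ n) := by
  induction n with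
  | zero => simpa using h.one
  | succ n ih => rw [pow_succ]; exact h.mul _ _ ih ha

omit [DecidableEq ι] in
lemma Pos.prod {P : F → Prop} (h : Pos P) (f : ι → F) (hf : ∀ i, P (f i)) : P (∏ i, f i) :=
  Finset.prod_induction f P h.mul h.one (fun i _ => hf i)

lemma Pos.mutX {P : F → Prop} (h : Pos P) {x : ι → F} (hx : ∀ i, P (x i)) (B : ι → ι → ℤ) (k : ι) :
    ∀ i, P (mutX x B k i) := by
  intro i
  unfold Clu.mutX
  by_cases hi : i = k
  · subst hi
    rw [Function.update_self, div_eq_mul_inv]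
    exact h.mul _ _ (h.add _ _ (h.prod _ fun i => h.pow (hx i) _) (h.prod _ fun i => h.pow (hx i) _))
      (h.inv _ (hx _))
  · rw [Function.update_of_ne hi]; exact hx i

lemma Pos.fold {P : F → Prop} (h : Pos P) (ks : List ι) : ∀ (s : (ι → F) × (ι → ι → ℤ)),
    (∀ i, P (s.1 i)) → ∀ i, P ((ks.foldl mutate s).1 i) := by
  induction ks with
  | nil => intro s hs; exact hs
  | cons k ks ih => intro s hs; exact ih _ (h.mutX hs _ _)

lemma mutX_neg (x : ι → F) (B : ι → ι → ℤ) (k : ι) : mutX x (fun i j => -B i j) k = mutX x B k := by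
  unfold mutX
  simp only [neg_neg]
  rw [add_comm]

lemma fold_neg (ks : List ι) : ∀ (x : ι → F) (B : ι → ι → ℤ),
    (ks.foldl mutate (x, fun i j => -B i j)).1 = (ks.foldl mutate (x, B)).1 := by
  induction ks with
  | nil => intro x B; rfl
  | cons k ks ih =>
    intro x B
    simp only [List.foldl_cons, mutate]
    rw [mutX_neg, mutB_neg, ih]

noncomputable def mono (x : ι → F) (e : ι → ℤ) : F := ∏ i, x i ^ e i

omit [DecidableEq ι] in
lemma mono_add {x : ι → F} (hx : ∀ i, x i ≠ 0) (e f : ι → ℤ) :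
    mono x (e + f) = mono x e * mono x f := by
  unfold mono
  rw [← Finset.prod_mul_distrib]
  exact Finset.prod_congr rfl fun i _ => zpow_add₀ (hx i) _ _

omit [DecidableEq ι] in
lemma mono_ne {x : ι → F} (hx : ∀ i, x i ≠ 0) (e : ι → ℤ) : mono x e ≠ 0 :=
  Finset.prod_ne_zero_iff.mpr fun i _ => zpow_ne_zero _ (hx i)

omit [DecidableEq ι] in
lemma mono_zero (x : ι → F) : mono x 0 = 1 := by simp [mono]

omit [DecidableEq ι] in
lemma mono_neg (x : ι → F) (e : ι → ℤ) : mono x (-e) = (mono x e)⁻¹ := by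
  unfold mono
  rw [← Finset.prod_inv_distrib]
  exact Finset.prod_congr rfl fun i _ => by simp

omit [DecidableEq ι] in
lemma mono_nsmul (x : ι → F) (n : ℕ) (e : ι → ℤ) : mono x (n • e) = mono x e ^ n := by
  unfold mono
  rw [← Finset.prod_pow]
  exact Finset.prod_congr rfl fun i _ => by
    rw [Pi.smul_apply, nsmul_eq_mul, mul_comm, zpow_mul, zpow_natCast]

lemma mono_single (x : ι → F) (j : ι) (a : ℤ) : mono x (Pi.single j a) = x j ^ a := by
  unfold mono
  rw [Finset.prod_eq_single j]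
  · simp
  · intro i _ hi; simp [Pi.single_eq_of_ne hi]
  · simp

lemma mono_update (x : ι → F) (j : ι) (u : F) (e : ι → ℤ) :
    mono (Function.update x j u) e = u ^ e j * mono x (Function.update e j 0) := by
  unfold mono
  rw [← Finset.mul_prod_erase _ _ (Finset.mem_univ j),
    ← Finset.mul_prod_erase _ _ (Finset.mem_univ j)]
  simp only [Function.update_self, zpow_zero, one_mul]
  congr 1
  refine Finset.prod_congr rfl fun i hi => ?_
  have : i ≠ j := Finset.ne_of_mem_erase hi
  rw [Function.update_of_ne this, Function.update_of_ne this]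

def pp (B : ι → ι → ℤ) (k : ι) : ι → ℤ := fun i => max (B i k) 0
def pm (B : ι → ι → ℤ) (k : ι) : ι → ℤ := fun i => max (-B i k) 0

lemma mutX_eq (x : ι → F) (B : ι → ι → ℤ) (k : ι) :
    mutX x B k = Function.update x k ((mono x (pp B k) + mono x (pm B k)) / x k) := by
  unfold mutX mono pp pm
  congr 3
  · exact Finset.prod_congr rfl fun i _ => by rw [← zpow_natCast, Int.toNat_eq_max]
  · exact Finset.prod_congr rfl fun i _ => by rw [← zpow_natCast, Int.toNat_eq_max]

lemma mutate_mutate {P : F → Prop} (h : Pos P) (x : ι → F) (hx : ∀ i, P (x i)) (B : ι → ι → ℤ)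
    (hB : Skew B) (k : ι) : mutate (mutate (x, B) k) k = (x, B) := by
  unfold mutate
  simp only [mutB_mutB, Prod.mk.injEq, and_true]
  have hu := h.ne_zero (h.mutX hx B k k)
  have hk := h.ne_zero (hx k)
  rw [mutX_eq (mutX x B k)]
  rw [mutX_eq x] at hu ⊢
  simp only [Function.update_self, Function.update_idem] at hu ⊢
  have e1 : pp (mutB B k) k = pm B k := by funext i; simp [pp, pm, mutB]
  have e2 : pm (mutB B k) k = pp B k := by funext i; simp [pp, pm, mutB]
  have z1 : pm B k k = 0 := by simp [pm, hB.diag]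
  have z2 : pp B k k = 0 := by simp [pp, hB.diag]
  rw [e1, e2, mono_update, mono_update, z1, z2, zpow_zero, one_mul, one_mul]
  rw [show Function.update (pm B k) k 0 = pm B k from by rw [← z1]; simp,
    show Function.update (pp B k) k 0 = pp B k from by rw [← z2]; simp]
  have hs : mono x (pp B k) + mono x (pm B k) ≠ 0 := fun e => hu (by rw [e]; simp)
  rw [show (mono x (pm B k) + mono x (pp B k)) / ((mono x (pp B k) + mono x (pm B k)) / x k) = x k
    from by rw [add_comm]; field_simp]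
  simp

/-- Laurent polynomials with integer coefficients in `x`. -/
def Lam (x : ι → F) : Subring F := Subring.closure (Set.range x ∪ Set.range fun i => (x i)⁻¹)

omit [Fintype ι] [DecidableEq ι] in
lemma Lam_x (x : ι → F) (i : ι) : x i ∈ Lam x := Subring.subset_closure (Or.inl ⟨i, rfl⟩)
omit [Fintype ι] [DecidableEq ι] in
lemma Lam_inv (x : ι → F) (i : ι) : (x i)⁻¹ ∈ Lam x := Subring.subset_closure (Or.inr ⟨i, rfl⟩)

lemma mutX_mem (x : ι → F) (B : ι → ι → ℤ) (k i : ι) : mutX x B k i ∈ Lam x := by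
  unfold mutX
  by_cases hi : i = k
  · subst hi
    rw [Function.update_self, div_eq_mul_inv]
    exact mul_mem (add_mem (prod_mem fun i _ => pow_mem (Lam_x x i) _)
      (prod_mem fun i _ => pow_mem (Lam_x x i) _)) (Lam_inv x _)
  · rw [Function.update_of_ne hi]; exact Lam_x x i

omit [Fintype ι] [DecidableEq ι] in
/-- clearing denominators -/
lemma Lam_clear (S : Subring F) (x : ι → F) (q : F) (hq : q ∈ S) (h1 : ∀ i, x i ∈ S)
    (h2 : ∀ i, (x i)⁻¹ * q ∈ S) (z : F) (hz : z ∈ Lam x) : ∃ m : ℕ, z * q ^ m ∈ S := by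
  refine Subring.closure_induction (p := fun z _ => ∃ m : ℕ, z * q ^ m ∈ S) ?_ ?_ ?_ ?_ ?_ ?_ hz
  · rintro a (⟨i, rfl⟩ | ⟨i, rfl⟩)
    · exact ⟨0, by simpa using h1 i⟩
    · exact ⟨1, by simpa using h2 i⟩
  · exact ⟨0, by simp⟩
  · exact ⟨0, by simp⟩
  · rintro a b _ _ ⟨m, hm⟩ ⟨n, hn⟩
    refine ⟨m + n, ?_⟩
    have : (a + b) * q ^ (m + n) = a * q ^ m * q ^ n + b * q ^ n * q ^ m := by ring
    rw [this]
    exact add_mem (mul_mem hm (pow_mem hq _)) (mul_mem hn (pow_mem hq _))
  · rintro a _ ⟨m, hm⟩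
    exact ⟨m, by rw [neg_mul]; exact neg_mem hm⟩
  · rintro a b _ _ ⟨m, hm⟩ ⟨n, hn⟩
    refine ⟨m + n, ?_⟩
    have : (a * b) * q ^ (m + n) = a * q ^ m * (b * q ^ n) := by ring
    rw [this]
    exact mul_mem hm hn

/-! The caterpillar computation. -/

def n2 (B : ι → ι → ℤ) (j k : ι) : ι → ℤ := pp (mutB B j) k
def n1 (B : ι → ι → ℤ) (j k : ι) : ι → ℤ := Function.update (pm (mutB B j) k) j 0
def k2 (B : ι → ι → ℤ) (j k : ι) : ι → ℤ := pp (mutB (mutB B j) k) j
def k1 (B : ι → ι → ℤ) (j k : ι) : ι → ℤ := Function.update (pm (mutB (mutB B j) k) j) k 0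

omit [Fintype ι] in
lemma upd_zero (e : ι → ℤ) (j : ι) (h : e j = 0) : Function.update e j 0 = e := by
  rw [← h]; simp

omit [Fintype ι] in
lemma n2_j {B : ι → ι → ℤ} {j k : ι} {b : ℕ} (hb : B j k = b) : n2 B j k j = 0 := by
  simp [n2, pp, mutB, hb]
omit [Fintype ι] in
lemma n2_k {B : ι → ι → ℤ} (hB : Skew B) {j k : ι} : n2 B j k k = 0 := by
  simp [n2, pp, (hB.mut j).diag]
omit [Fintype ι] in
lemma n1_j {B : ι → ι → ℤ} {j k : ι} : n1 B j k j = 0 := by simp [n1]
omit [Fintype ι] in
lemma k2_j {B : ι → ι → ℤ} (hB : Skew B) {j k : ι} : k2 B j k j = 0 := by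
  simp [k2, pp, ((hB.mut j).mut k).diag]
omit [Fintype ι] in
lemma k2_k {B : ι → ι → ℤ} (hB : Skew B) {j k : ι} {b : ℕ} (hb : B j k = b) :
    k2 B j k k = 0 := by
  simp [k2, pp, mutB, hB j k, hb]
omit [Fintype ι] in
lemma k1_j {B : ι → ι → ℤ} (hB : Skew B) {j k : ι} (hjk : j ≠ k) : k1 B j k j = 0 := by
  simp [k1, pm, Function.update_of_ne hjk, ((hB.mut j).mut k).diag]

omit [Fintype ι] in
lemma expo {B : ι → ι → ℤ} (hB : Skew B) {j k : ι} (hjk : j ≠ k) {b : ℕ} (hb : B j k = b) :
    b • (n2 B j k + -Pi.single k 1) + k1 B j k = k2 B j k + pp B j + -pm B j := by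
  funext i
  rw [Pi.add_apply, Pi.smul_apply, nsmul_eq_mul]
  simp only [Pi.add_apply, Pi.neg_apply]
  by_cases hij : i = j
  · subst hij
    rw [n2_j hb, k1_j hB hjk, k2_j hB, Pi.single_eq_of_ne hjk]
    simp [pp, pm, hB.diag]
  · by_cases hik : i = k
    · subst hik
      rw [n2_k hB, k2_k hB hb]
      simp [k1, pp, pm, hB j i, hb]
    · have hkj : B k j = -b := by rw [hB j k, hb]
      have e1 : mutB B j i j = -B i j := by simp [mutB]
      have e2 : mutB B j k j = b := by simp [mutB, hkj]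
      have e3 : mutB (mutB B j) k i j = -B i j + max (mutB B j i k) 0 * b := by
        rw [mutB, if_neg (by tauto), e1, e2]
        simp
      simp only [n2, k1, k2, pp, pm, Function.update_of_ne hik, Pi.single_eq_of_ne hik, e3]
      generalize max (mutB B j i k) 0 = d
      generalize B i j = a
      have : ∀ t : ℤ, max (-t) 0 = max t 0 - t := fun t => by omega
      rw [this (-a + d * b), this a]
      ring

lemma u_eq (x : ι → F) (B : ι → ι → ℤ) (j : ι) :
    mutX x B j j = (mono x (pp B j) + mono x (pm B j)) * mono x (-Pi.single j 1) := by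
  rw [mutX_eq, Function.update_self, mono_neg, mono_single, zpow_one, div_eq_mul_inv]

lemma v_eq (x : ι → F) (B : ι → ι → ℤ) {j k : ι} (hjk : j ≠ k) {b : ℕ} (hb : B j k = b) :
    mutX (mutX x B j) (mutB B j) k k =
      (mono x (n2 B j k) + mutX x B j j ^ b * mono x (n1 B j k)) * mono x (-Pi.single k 1) := by
  rw [mutX_eq (mutX x B j), Function.update_self, mono_neg, mono_single, zpow_one, div_eq_mul_inv]
  have hx : mutX x B j = Function.update x j (mutX x B j j) := by
    rw [mutX_eq x]; simp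
  have hk : mutX x B j k = x k := by rw [hx, Function.update_of_ne hjk.symm]
  rw [hk]
  generalize mutX x B j j = u at hx ⊢
  rw [hx, mono_update, mono_update]
  have a1 : pp (mutB B j) k j = 0 := n2_j hb
  have a2 : pm (mutB B j) k j = b := by simp [pm, mutB, hb]
  rw [a1, a2, upd_zero _ _ a1, zpow_zero, one_mul, zpow_natCast]
  rfl

lemma w_eq (x : ι → F) (B : ι → ι → ℤ) (hB : Skew B) {j k : ι} (hjk : j ≠ k) {b : ℕ}
    (hb : B j k = b) :
    mutX (mutX (mutX x B j) (mutB B j) k) (mutB (mutB B j) k) j j =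
      (mono x (k2 B j k) + mutX (mutX x B j) (mutB B j) k k ^ b * mono x (k1 B j k)) /
        mutX x B j j := by
  rw [mutX_eq (mutX (mutX x B j) (mutB B j) k), Function.update_self]
  have hx : mutX x B j = Function.update x j (mutX x B j j) := by
    rw [mutX_eq x]; simp
  have hy : mutX (mutX x B j) (mutB B j) k =
      Function.update (mutX x B j) k (mutX (mutX x B j) (mutB B j) k k) := by
    rw [mutX_eq (mutX x B j)]; simp
  generalize mutX (mutX x B j) (mutB B j) k k = v at hy ⊢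
  rw [hy, Function.update_of_ne hjk]
  generalize mutX x B j j = u at hx ⊢
  rw [hx, mono_update, mono_update, mono_update, mono_update]
  have a1 : pp (mutB (mutB B j) k) j k = 0 := k2_k hB hb
  have a2 : pp (mutB (mutB B j) k) j j = 0 := k2_j hB
  have a3 : pm (mutB (mutB B j) k) j k = b := by simp [pm, mutB, hB j k, hb]
  have a4 : Function.update (pm (mutB (mutB B j) k) j) k 0 j = 0 := k1_j hB hjk
  rw [a1, upd_zero _ _ a1, a2, upd_zero _ _ a2, a3, a4, upd_zero _ _ a4]
  simp only [zpow_zero, one_mul, zpow_natCast]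
  rfl

end Pool.Agent.H457Z.Clu
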