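import Pool.Agent.H457Z.Clu.LaurentA

set_option autoImplicit false

namespace Pool.Agent.H457Z.Clu

variable {ι : Type} [Fintype ι] [DecidableEq ι]

abbrev LR (ι : Type) : Type := AddMonoidAlgebra ℤ (ι → ℤ)

noncomputable def T (e : ι → ℤ) : LR ι := AddMonoidAlgebra.single e 1

omit [Fintype ι] [DecidableEq ι] in
lemma T_add (e f : ι → ℤ) : T (e + f) = T e * T f := by
  simp [T, AddMonoidAlgebra.single_mul_single]

omit [Fintype ι] [DecidableEq ι] in
lemma T_zero : T (0 : ι → ℤ) = 1 := rfl

noncomputable def TH (ι : Type) : Multiplicative (ι → ℤ) →* LR ι := AddMonoidAlgebra.of ℤ (ι → ℤ)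

noncomputable def TU (e : ι → ℤ) : (LR ι)ˣ := (TH ι).toHomUnits (Multiplicative.ofAdd e)

omit [Fintype ι] [DecidableEq ι] in
lemma TU_val (e : ι → ℤ) : (TU e : LR ι) = T e := rfl

lemma TU_eq (e : ι → ℤ) : TU e = ∏ i, TU (Pi.single i 1) ^ e i := by
  unfold TU
  simp only [← map_zpow, ← map_prod]
  congr 1
  apply Multiplicative.toAdd.injective
  funext j
  simp [toAdd_prod, Finset.sum_apply, Pi.single_apply]

noncomputable def expHom {A : Type} [CommRing A] (t : ι → Aˣ) : Multiplicative (ι → ℤ) →* A where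
  toFun e := ((∏ i, t i ^ (Multiplicative.toAdd e i) : Aˣ) : A)
  map_one' := by simp
  map_mul' e f := by
    rw [← Units.val_mul, ← Finset.prod_mul_distrib]
    simp [zpow_add]

noncomputable def lift {A : Type} [CommRing A] (t : ι → Aˣ) : LR ι →+* A :=
  (AddMonoidAlgebra.lift ℤ A (ι → ℤ) (expHom t)).toRingHom

omit [DecidableEq ι] in
lemma lift_T {A : Type} [CommRing A] (t : ι → Aˣ) (e : ι → ℤ) :
    lift t (T e) = ((∏ i, t i ^ e i : Aˣ) : A) := by
  simp [lift, T, expHom]

lemma lift_single {A : Type} [CommRing A] (t : ι → Aˣ) (j : ι) :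
    lift t (T (Pi.single j 1)) = t j := by
  rw [lift_T, Finset.prod_eq_single j]
  · simp
  · intro i _ hi; simp [Pi.single_eq_of_ne hi]
  · simp

lemma map_T {A : Type} [CommRing A] (f : LR ι →+* A) (e : ι → ℤ) :
    f (T e) = ((∏ i, (Units.map f.toMonoidHom (TU (Pi.single i 1))) ^ e i : Aˣ) : A) := by
  simp only [← map_zpow, ← map_prod, ← TU_eq]
  rfl

lemma hom_ext {A : Type} [CommRing A] (f g : LR ι →+* A)
    (h : ∀ i, f (T (Pi.single i 1)) = g (T (Pi.single i 1))) : f = g := by
  apply AddMonoidAlgebra.ringHom_ext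
  · intro r
    have : (AddMonoidAlgebra.single 0 r : LR ι) = (r : LR ι) := by
      simp [AddMonoidAlgebra.intCast_def]
    rw [this, map_intCast, map_intCast]
  · intro a
    change f (T a) = g (T a)
    rw [map_T, map_T]
    congr 1
    refine Finset.prod_congr rfl fun i _ => ?_
    congr 1
    exact Units.ext (h i)

variable {F : Type} [Field F]

noncomputable def ev (x : ι → F) (hx : ∀ i, x i ≠ 0) : LR ι →+* F :=
  lift fun i => Units.mk0 (x i) (hx i)

omit [DecidableEq ι] in
lemma ev_T (x : ι → F) (hx : ∀ i, x i ≠ 0) (e : ι → ℤ) : ev x hx (T e) = mono x e := by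
  simp [ev, lift_T, mono]

omit [DecidableEq ι] in
lemma mono_mem (x : ι → F) (e : ι → ℤ) : mono x e ∈ Lam x := by
  refine prod_mem fun i _ => ?_
  rcases Int.eq_nat_or_neg (e i) with ⟨n, h | h⟩
  · rw [h, zpow_natCast]; exact pow_mem (Lam_x x i) _
  · rw [h, zpow_neg, zpow_natCast, ← inv_pow]; exact pow_mem (Lam_inv x i) _

omit [DecidableEq ι] in
lemma ev_mem (x : ι → F) (hx : ∀ i, x i ≠ 0) (f : LR ι) : ev x hx f ∈ Lam x := by
  induction f using AddMonoidAlgebra.induction_on with
  | of e => exact (ev_T x hx e) ▸ mono_mem x e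
  | add f g hf hg => rw [map_add]; exact add_mem hf hg
  | smul r f hf => rw [map_zsmul]; exact zsmul_mem hf r

/-- a binomial that is linear in one variable is prime -/
lemma prime_binom (a c : ι → ℤ) (y : ι) (ha : a y = 1) (hc : c y = 0) : Prime (T a + T c) := by
  let g : ι → ℤ := c + -a + Pi.single y 1
  let t : ι → (LR ι)ˣ := fun i => if i = y then -TU g else TU (Pi.single i 1)
  let ε : LR ι →+* LR ι := lift t
  have hε : ∀ e : ι → ℤ, e y = 0 → ε (T e) = T e := by
    intro e he
    rw [lift_T, ← TU_val, TU_eq e]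
    congr 1
    refine Finset.prod_congr rfl fun i _ => ?_
    by_cases hi : i = y
    · subst hi; simp [he]
    · simp [t, hi]
  have hy : ε (T (Pi.single y 1)) = -T g := by
    rw [lift_single]; simp [t, TU_val]
  have ha' : T a = T (Pi.single y 1) * T (a + -Pi.single y 1) := by
    rw [← T_add]; congr 1; abel
  have hP : ε (T a + T c) = 0 := by
    rw [map_add, hε c hc, ha', map_mul, hy, hε _ (by simp [ha]), neg_mul, ← T_add]
    rw [show g + (a + -Pi.single y 1) = c from by simp only [g]; abel]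
    simp
  let I : Ideal (LR ι) := Ideal.span {T a + T c}
  have hπ : (Ideal.Quotient.mk I).comp ε = Ideal.Quotient.mk I := by
    apply hom_ext
    intro i
    rw [RingHom.comp_apply]
    by_cases hi : i = y
    · subst hi
      rw [hy, Ideal.Quotient.eq, Ideal.mem_span_singleton]
      refine ⟨-T (-a + Pi.single i 1), ?_⟩
      rw [mul_neg, add_mul, ← T_add, ← T_add]
      rw [show a + (-a + Pi.single i 1) = Pi.single i 1 from by abel,
        show c + (-a + Pi.single i 1) = g from by simp only [g]; abel]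
      ring
    · rw [hε _ (by simp [Pi.single_eq_of_ne (Ne.symm hi)])]
  have hker : I = RingHom.ker ε := by
    apply le_antisymm
    · rw [Ideal.span_le, Set.singleton_subset_iff]
      exact hP
    · intro f hf
      rw [RingHom.mem_ker] at hf
      have := congrArg (fun φ => φ f) hπ
      simp only [RingHom.comp_apply, hf, map_zero] at this
      exact Ideal.Quotient.eq_zero_iff_mem.mp this.symm
  have hne : T a + T c ≠ 0 := by
    intro h
    have := congrArg (ev (fun _ : ι => (1 : ℚ)) (fun _ => one_ne_zero)) h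
    rw [map_add, ev_T, ev_T, map_zero] at this
    simp [mono] at this
  rw [← Ideal.span_singleton_prime hne]
  change I.IsPrime
  rw [hker]
  exact RingHom.ker_isPrime ε

noncomputable def UU (B : ι → ι → ℤ) (j : ι) : LR ι :=
  (T (pp B j) + T (pm B j)) * T (-Pi.single j 1)

noncomputable def VV (B : ι → ι → ℤ) (j k : ι) (b : ℕ) : LR ι :=
  (T (n2 B j k) + UU B j ^ b * T (n1 B j k)) * T (-Pi.single k 1)

noncomputable def WW (B : ι → ι → ℤ) (j k : ι) (b : ℕ) : LR ι :=
  T (k2 B j k + -pm B j + Pi.single j 1) +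
    T (k1 B j k + n1 B j k + -Pi.single k 1) * UU B j ^ (b - 1) *
      ∑ i ∈ Finset.range b, VV B j k b ^ i * T (n2 B j k + -Pi.single k 1) ^ (b - 1 - i)

lemma ev_UU (x : ι → F) (hx : ∀ i, x i ≠ 0) (B : ι → ι → ℤ) (j : ι) :
    ev x hx (UU B j) = mutX x B j j := by
  rw [u_eq]; simp [UU, ev_T]

lemma ev_VV (x : ι → F) (hx : ∀ i, x i ≠ 0) (B : ι → ι → ℤ) {j k : ι} (hjk : j ≠ k) {b : ℕ}
    (hb : B j k = b) : ev x hx (VV B j k b) = mutX (mutX x B j) (mutB B j) k k := by
  rw [v_eq x B hjk hb]; simp [VV, ev_T, ev_UU]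

lemma ev_WW (x : ι → F) (hx : ∀ i, x i ≠ 0) (B : ι → ι → ℤ) (hB : Skew B) {j k : ι}
    (hjk : j ≠ k) {b : ℕ} (hb : B j k = b) (hu : mutX x B j j ≠ 0) :
    ev x hx (WW B j k b) = mutX (mutX (mutX x B j) (mutB B j) k) (mutB (mutB B j) k) j j := by
  rw [w_eq x B hB hjk hb, eq_div_iff hu]
  simp only [WW, map_add, map_mul, map_pow, map_sum, ev_T, ev_UU, ev_VV x hx B hjk hb]
  have hv := v_eq x B hjk hb
  have hu' := u_eq x B j
  have he := congrArg (mono x) (expo hB hjk hb)
  rw [mono_add hx, mono_nsmul, mono_add hx (k2 B j k + pp B j), mono_add hx (k2 B j k)] at he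
  generalize mutX (mutX x B j) (mutB B j) k k = v at hv ⊢
  generalize mutX x B j j = u at hv hu' hu ⊢
  have hg := geom_sum₂_mul v (mono x (n2 B j k + -Pi.single k 1)) b
  generalize ∑ i ∈ Finset.range b, v ^ i * mono x (n2 B j k + -Pi.single k 1) ^ (b - 1 - i) = G
    at hg ⊢
  have hG : u ^ (b - 1) * u * G = u ^ b * G := by
    rcases Nat.eq_zero_or_pos b with h0 | h0
    · subst h0
      have : G * (v - mono x (n2 B j k + -Pi.single k 1)) = 0 := by simpa using hg
      rcases mul_eq_zero.mp this with h | h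
      · simp [h]
      · exfalso
        rw [hv, mono_add hx] at h
        have h2 : mono x (n1 B j k) * mono x (-Pi.single k 1) = 0 := by
          rw [← h]; ring
        exact mul_ne_zero (mono_ne hx _) (mono_ne hx _) h2
    · rw [← pow_succ, Nat.sub_add_cancel h0]
  have e1 : mono x (Pi.single j 1) * mono x (-Pi.single j 1) = 1 := by
    rw [← mono_add hx]; simp [mono_zero]
  have e2 : mono x (pm B j) * mono x (-pm B j) = 1 := by
    rw [← mono_add hx]; simp [mono_zero]
  have hs : v - mono x (n2 B j k + -Pi.single k 1) =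
      u ^ b * mono x (n1 B j k) * mono x (-Pi.single k 1) := by
    rw [hv, mono_add hx]; ring
  rw [hs] at hg
  simp only [mono_add hx] at he hg ⊢
  generalize (mono x (n2 B j k) * mono x (-Pi.single k 1)) ^ b = S at he hg
  have h1 : mono x (k2 B j k) * mono x (-pm B j) * mono x (Pi.single j 1) * u =
      S * mono x (k1 B j k) + mono x (k2 B j k) := by
    rw [he, hu']
    linear_combination (mono x (k2 B j k) * mono x (-pm B j) * (mono x (pp B j) + mono x (pm B j))) * e1
      + mono x (k2 B j k) * e2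
  linear_combination h1 + mono x (k1 B j k) * mono x (n1 B j k) * mono x (-Pi.single k 1) * hG
    + mono x (k1 B j k) * hg

noncomputable def tq (y j : ι) : ι → ℚ := fun i => if i = y then -1 else if i = j then 2 else 1

omit [Fintype ι] in
lemma tq_ne (y j : ι) (i : ι) : tq y j i ≠ 0 := by
  unfold tq; split_ifs <;> norm_num

lemma mono_tq {y j : ι} (h : y ≠ j) (e : ι → ℤ) : mono (tq y j) e = (-1) ^ e y * 2 ^ e j := by
  unfold mono
  rw [Finset.prod_eq_mul y j h]
  · simp [tq, h.symm]
  · intro i _ hi; simp [tq, hi.1, hi.2]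
  · simp
  · simp

lemma neg_one_zpow' (a : ℤ) : (-1 : ℚ) ^ a = 1 ∨ (-1 : ℚ) ^ a = -1 := by
  rcases Int.even_or_odd a with h | h
  · exact Or.inl h.neg_one_zpow
  · exact Or.inr h.neg_one_zpow

lemma not_dvd_VW (B : ι → ι → ℤ) (hB : Skew B) {j k y : ι} (hjk : j ≠ k) (hyj : y ≠ j)
    (h1 : B y j = 1) (h0 : B y k = 0) {b : ℕ} (hb : B j k = b) :
    ¬ (T (pp B j) + T (pm B j)) ∣ VV B j k b * WW B j k b := by
  intro hd
  let θ := ev (tq y j) (tq_ne y j)
  have hP : θ (T (pp B j) + T (pm B j)) = 0 := by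
    rw [map_add, ev_T, ev_T, mono_tq hyj, mono_tq hyj]
    simp [pp, pm, h1, hB.diag]
  have hU : θ (UU B j) = 0 := by rw [UU, map_mul, hP, zero_mul]
  have hz : θ (VV B j k b) * θ (WW B j k b) = 0 := by
    rw [← map_mul]
    obtain ⟨c, hc⟩ := hd
    rw [hc, map_mul, hP, zero_mul]
  have hV : θ (VV B j k b) ≠ 0 := by
    rw [VV, map_mul, map_add, map_mul, map_pow, hU, ev_T, ev_T, ev_T]
    refine mul_ne_zero ?_ (mono_ne (tq_ne y j) _)
    rcases Nat.eq_zero_or_pos b with hb0 | hb0
    · subst hb0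
      rw [mono_tq hyj, mono_tq hyj, n2_j hb, n1_j]
      have e : mutB B j y k = 0 := by
        have : B j k = 0 := by simpa using hb
        simp [mutB, hyj, hjk.symm, h0, this]
      simp [n2, n1, pp, pm, Function.update_of_ne hyj, e]
    · rw [zero_pow hb0.ne', zero_mul, add_zero]
      exact mono_ne (tq_ne y j) _
  have hW : θ (WW B j k b) ≠ 0 := by
    rw [WW, map_add, map_mul, map_mul, map_pow, hU, ev_T, ev_T]
    by_cases hb1 : b = 1
    · subst hb1
      rw [mono_tq hyj, mono_tq hyj]
      have a1 : (k2 B j k + -pm B j + Pi.single j 1 : ι → ℤ) j = 1 := by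
        simp [k2_j hB, pm, hB.diag]
      have a2 : (k1 B j k + n1 B j k + -Pi.single k 1 : ι → ℤ) j = 0 := by
        simp [k1_j hB hjk, n1_j, Pi.single_eq_of_ne hjk]
      rw [a1, a2]
      simp only [Nat.sub_self, pow_zero, mul_one, Finset.range_one, Finset.sum_singleton,
        map_one, zpow_one, zpow_zero]
      rcases neg_one_zpow' ((k2 B j k + -pm B j + Pi.single j 1 : ι → ℤ) y) with h | h <;>
      rcases neg_one_zpow' ((k1 B j k + n1 B j k + -Pi.single k 1 : ι → ℤ) y) with h' | h' <;>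
      rw [h, h'] <;> norm_num
    · rcases Nat.eq_zero_or_pos b with hb0 | hb0
      · subst hb0
        simp only [Finset.range_zero, Finset.sum_empty, map_zero, mul_zero, add_zero]
        exact mono_ne (tq_ne y j) _
      · rw [zero_pow (by omega), mul_zero, zero_mul, add_zero]
        exact mono_ne (tq_ne y j) _
  exact mul_ne_zero hV hW hz

end Pool.Agent.H457Z.Clu
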