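import Pool.Agent.H457Z.Clu.LaurentB

set_option autoImplicit false

namespace Pool.Agent.H457Z.Clu

variable {ι : Type} [Fintype ι] [DecidableEq ι]

abbrev KK (ι : Type) : Type := FractionRing (LR ι)

noncomputable def XX (i : ι) : KK ι := algebraMap (LR ι) (KK ι) (T (Pi.single i 1))

omit [Fintype ι] [DecidableEq ι] in
lemma T_ne (e : ι → ℤ) : T e ≠ 0 := (TU e).ne_zero

omit [Fintype ι] in
lemma XX_ne (i : ι) : XX i ≠ 0 :=
  (map_ne_zero_iff _ (IsFractionRing.injective (LR ι) (KK ι))).mpr (T_ne _)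

lemma alg_eq : algebraMap (LR ι) (KK ι) = ev XX XX_ne := by
  apply hom_ext
  intro i
  rw [ev_T, mono_single, zpow_one]
  rfl

noncomputable def ev1 : LR ι →+* ℚ := ev (fun _ : ι => (1 : ℚ)) (fun _ => one_ne_zero)

/-- positive cone from a homomorphism to the rationals -/
def Cone {R K : Type} [CommRing R] [Field K] (ψ : R →+* K) (θ : R →+* ℚ) (z : K) : Prop :=
  ∃ f g : R, 0 < θ f ∧ 0 < θ g ∧ z * ψ g = ψ f

lemma cone_pos {R K : Type} [CommRing R] [Field K] (ψ : R →+* K) (hψ : Function.Injective ψ)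
    (θ : R →+* ℚ) : Pos (Cone ψ θ) where
  one := ⟨1, 1, by simp, by simp, by simp⟩
  add := by
    rintro a b ⟨f, g, hf, hg, h⟩ ⟨f', g', hf', hg', h'⟩
    refine ⟨f * g' + f' * g, g * g', by simp only [map_add, map_mul]; positivity,
      by simp only [map_mul]; positivity, ?_⟩
    simp only [map_add, map_mul]
    linear_combination ψ g' * h + ψ g * h'
  mul := by
    rintro a b ⟨f, g, hf, hg, h⟩ ⟨f', g', hf', hg', h'⟩
    refine ⟨f * f', g * g', by simp only [map_mul]; positivity,
      by simp only [map_mul]; positivity, ?_⟩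
    simp only [map_mul]
    rw [← h, ← h']; ring
  inv := by
    rintro a ⟨f, g, hf, hg, h⟩
    refine ⟨g, f, hg, hf, ?_⟩
    have hf0 : ψ f ≠ 0 := (map_ne_zero_iff _ hψ).mpr (fun e => by simp [e] at hf)
    have ha : a ≠ 0 := fun e => hf0 (by rw [← h, e, zero_mul])
    rw [← h, ← mul_assoc, inv_mul_cancel₀ ha, one_mul]
  ne := by
    rintro ⟨f, g, hf, _, h⟩
    have hf0 : ψ f ≠ 0 := (map_ne_zero_iff _ hψ).mpr (fun e => by simp [e] at hf)
    exact hf0 (by rw [← h, zero_mul])

lemma XX_cone (i : ι) : Cone (algebraMap (LR ι) (KK ι)) ev1 (XX i) :=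
  ⟨T (Pi.single i 1), 1, by simp [ev1, ev_T, mono], by simp, by simp [XX]⟩

lemma univ_step (B : ι → ι → ℤ) (hB : Skew B) {j k y : ι} (hjk : j ≠ k) (hyj : y ≠ j)
    (h1 : B y j = 1) (h0 : B y k = 0) {b : ℕ} (hb : B j k = b) (z : KK ι)
    (hz1 : z ∈ Lam (mutX XX B j))
    (hz3 : z ∈ Lam (mutX (mutX (mutX XX B j) (mutB B j) k) (mutB (mutB B j) k) j)) :
    z ∈ (algebraMap (LR ι) (KK ι)).range := by
  have hinj := IsFractionRing.injective (LR ι) (KK ι)
  have hp := cone_pos _ hinj (ev1 (ι := ι))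
  have p1 := hp.mutX XX_cone B j
  have p2 := hp.mutX p1 (mutB B j) k
  have p3 := hp.mutX p2 (mutB (mutB B j) k) j
  have hu := hp.ne_zero (p1 j)
  have hv := hp.ne_zero (p2 k)
  have hw := hp.ne_zero (p3 j)
  have eU := ev_UU XX XX_ne B j
  have eV := ev_VV XX XX_ne B hjk hb
  have eW := ev_WW XX XX_ne B hB hjk hb hu
  rw [← alg_eq] at eU eV eW
  set ψ := algebraMap (LR ι) (KK ι) with hψ
  have hX : ∀ i, XX i ∈ ψ.range := fun i => ⟨_, rfl⟩
  have hXi : ∀ i, (XX i)⁻¹ ∈ ψ.range := fun i => ⟨T (-Pi.single i 1), by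
    rw [hψ, alg_eq, ev_T, mono_neg, mono_single, zpow_one]⟩
  have e1 : ∀ i, i ≠ j → mutX XX B j i = XX i := fun i hi => by
    rw [mutX, Function.update_of_ne hi]
  have e2 : ∀ i, i ≠ k → mutX (mutX XX B j) (mutB B j) k i = mutX XX B j i := fun i hi => by
    rw [mutX, Function.update_of_ne hi]
  have e3 : ∀ i, i ≠ j → mutX (mutX (mutX XX B j) (mutB B j) k) (mutB (mutB B j) k) j i =
      mutX (mutX XX B j) (mutB B j) k i := fun i hi => by
    rw [mutX, Function.update_of_ne hi]
  obtain ⟨m, f1, hf1⟩ := Lam_clear ψ.range _ (ψ (UU B j)) ⟨_, rfl⟩ (fun i => by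
      by_cases hi : i = j
      · subst hi; exact ⟨_, eU⟩
      · rw [e1 i hi]; exact hX i) (fun i => by
      by_cases hi : i = j
      · subst hi; rw [eU, inv_mul_cancel₀ hu]; exact one_mem _
      · rw [e1 i hi]; exact mul_mem (hXi i) ⟨_, rfl⟩) z hz1
  obtain ⟨m', f3, hf3⟩ := Lam_clear ψ.range _ (ψ (VV B j k b * WW B j k b)) ⟨_, rfl⟩ (fun i => by
      by_cases hi : i = j
      · subst hi; exact ⟨_, eW⟩
      · rw [e3 i hi]
        by_cases hik : i = k
        · subst hik; exact ⟨_, eV⟩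
        · rw [e2 i hik, e1 i hi]; exact hX i) (fun i => by
      by_cases hi : i = j
      · subst hi
        rw [map_mul, eW, mul_comm (ψ _), ← mul_assoc, inv_mul_cancel₀ hw, one_mul]
        exact ⟨_, rfl⟩
      · rw [e3 i hi]
        by_cases hik : i = k
        · subst hik
          rw [map_mul, eV, ← mul_assoc, inv_mul_cancel₀ hv, one_mul]
          exact ⟨_, rfl⟩
        · rw [e2 i hik, e1 i hi]; exact mul_mem (hXi i) ⟨_, rfl⟩) z hz3
  have hprime := prime_binom (pp B j) (pm B j) y (by simp [pp, h1]) (by simp [pm, h1])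
  have hnd := not_dvd_VW B hB hjk hyj h1 h0 hb
  have key : f1 * (VV B j k b * WW B j k b) ^ m' = f3 * UU B j ^ m := by
    apply hinj
    rw [map_mul, map_mul, map_pow, map_pow, hf1, hf3]
    ring
  have hd : (T (pp B j) + T (pm B j)) ^ m ∣ f1 := by
    refine hprime.pow_dvd_of_dvd_mul_right m (b := (VV B j k b * WW B j k b) ^ m')
      (fun h => hnd (hprime.dvd_of_dvd_pow h)) ?_
    rw [key, UU, mul_pow]
    exact Dvd.intro (f3 * T (-Pi.single j 1) ^ m) (by ring)
  obtain ⟨g, hg⟩ := hd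
  refine ⟨g * T (Pi.single j 1) ^ m, ?_⟩
  have hU0 : ψ (UU B j) ^ m ≠ 0 := pow_ne_zero _ (by rw [eU]; exact hu)
  apply mul_right_cancel₀ hU0
  rw [← hf1, hg, ← map_pow, ← map_mul]
  congr 1
  have : T (Pi.single j (1 : ℤ)) * T (-Pi.single j 1) = 1 := by
    rw [← T_add]; simp [T_zero]
  rw [UU, mul_pow]
  calc g * T (Pi.single j 1) ^ m * ((T (pp B j) + T (pm B j)) ^ m * T (-Pi.single j 1) ^ m)
      = (T (pp B j) + T (pm B j)) ^ m * g * (T (Pi.single j 1) * T (-Pi.single j 1)) ^ m := by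
        rw [mul_pow]; ring
    _ = (T (pp B j) + T (pm B j)) ^ m * g := by rw [this, one_pow, mul_one]

section Transfer

variable {R K F : Type} [CommRing R] [Field K] [Field F] (ψ : R →+* K) (φ : R →+* F)

def Rel (a' : K) (a : F) : Prop := ∃ f g : R, φ g ≠ 0 ∧ a' * ψ g = ψ f ∧ a * φ g = φ f

lemma Rel.of (f : R) : Rel ψ φ (ψ f) (φ f) := ⟨f, 1, by simp, by simp, by simp⟩

variable {ψ φ}

lemma Rel.one : Rel ψ φ 1 1 := by simpa using Rel.of ψ φ 1

lemma Rel.add {a' b' : K} {a b : F} (h : Rel ψ φ a' a) (h' : Rel ψ φ b' b) :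
    Rel ψ φ (a' + b') (a + b) := by
  obtain ⟨f, g, hg, h1, h2⟩ := h
  obtain ⟨f', g', hg', h1', h2'⟩ := h'
  refine ⟨f * g' + f' * g, g * g', by rw [map_mul]; exact mul_ne_zero hg hg', ?_, ?_⟩
  · simp only [map_add, map_mul]; linear_combination ψ g' * h1 + ψ g * h1'
  · simp only [map_add, map_mul]; linear_combination φ g' * h2 + φ g * h2'

lemma Rel.mul {a' b' : K} {a b : F} (h : Rel ψ φ a' a) (h' : Rel ψ φ b' b) :
    Rel ψ φ (a' * b') (a * b) := by
  obtain ⟨f, g, hg, h1, h2⟩ := h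
  obtain ⟨f', g', hg', h1', h2'⟩ := h'
  refine ⟨f * f', g * g', by rw [map_mul]; exact mul_ne_zero hg hg', ?_, ?_⟩
  · simp only [map_mul]; rw [← h1, ← h1']; ring
  · simp only [map_mul]; rw [← h2, ← h2']; ring

lemma Rel.pow {a' : K} {a : F} (h : Rel ψ φ a' a) (n : ℕ) : Rel ψ φ (a' ^ n) (a ^ n) := by
  induction n with
  | zero => simpa using Rel.one
  | succ n ih => rw [pow_succ, pow_succ]; exact ih.mul h

lemma Rel.div (hψ : Function.Injective ψ) {a' b' : K} {a b : F} (h : Rel ψ φ a' a)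
    (h' : Rel ψ φ b' b) (hb : b ≠ 0) : Rel ψ φ (a' / b') (a / b) := by
  obtain ⟨f, g, hg, h1, h2⟩ := h
  obtain ⟨f', g', hg', h1', h2'⟩ := h'
  have hf' : φ f' ≠ 0 := by rw [← h2']; exact mul_ne_zero hb hg'
  have hf'' : ψ f' ≠ 0 := (map_ne_zero_iff _ hψ).mpr (fun e => hf' (by simp [e]))
  have hb' : b' ≠ 0 := fun e => hf'' (by rw [← h1', e, zero_mul])
  refine ⟨f * g', g * f', by rw [map_mul]; exact mul_ne_zero hg hf', ?_, ?_⟩
  · simp only [map_mul]; rw [← h1, ← h1']; field_simp
  · simp only [map_mul]; rw [← h2, ← h2']; field_simp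

omit [Fintype ι] [DecidableEq ι] in
lemma Rel.prod (s : Finset ι) {a' : ι → K} {a : ι → F} (h : ∀ i, Rel ψ φ (a' i) (a i)) :
    Rel ψ φ (∏ i ∈ s, a' i) (∏ i ∈ s, a i) := by
  classical
  induction s using Finset.induction_on with
  | empty => simpa using Rel.one
  | insert i s hi ih => rw [Finset.prod_insert hi, Finset.prod_insert hi]; exact (h i).mul ih

lemma Rel.eq (hψ : Function.Injective ψ) {l : R} {a : F} (h : Rel ψ φ (ψ l) a) : a = φ l := by
  obtain ⟨f, g, hg, h1, h2⟩ := h
  rw [← map_mul] at h1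
  apply mul_right_cancel₀ hg
  rw [h2, ← hψ h1, map_mul]

def Ext (ψ : R →+* K) (φ : R →+* F) (s' : (Option ι → K) × (Option ι → Option ι → ℤ))
    (s : (ι → F) × (ι → ι → ℤ)) : Prop :=
  (∀ a b, s'.2 (some a) (some b) = s.2 a b) ∧ (∀ i, Rel ψ φ (s'.1 (some i)) (s.1 i)) ∧
    Rel ψ φ (s'.1 none) 1

lemma Ext.mutate (hψ : Function.Injective ψ) {s' : (Option ι → K) × (Option ι → Option ι → ℤ)}
    {s : (ι → F) × (ι → ι → ℤ)} (h : Ext ψ φ s' s) (k : ι) (hk : s.1 k ≠ 0) :
    Ext ψ φ (mutate s' (some k)) (mutate s k) := by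
  obtain ⟨h1, h2, h3⟩ := h
  refine ⟨fun a b => ?_, fun i => ?_, ?_⟩
  · simp [Clu.mutate, mutB, h1]
  · simp only [Clu.mutate, mutX]
    by_cases hi : i = k
    · subst hi
      rw [Function.update_self, Function.update_self, Fintype.prod_option, Fintype.prod_option]
      refine Rel.div hψ (Rel.add ?_ ?_) (h2 i) hk
      · have := (h3.pow (s'.2 none (some i)).toNat).mul
          (Rel.prod Finset.univ fun a => (h2 a).pow (s.2 a i).toNat)
        simpa [h1] using this
      · have := (h3.pow (-s'.2 none (some i)).toNat).mul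
          (Rel.prod Finset.univ fun a => (h2 a).pow (-s.2 a i).toNat)
        simpa [h1] using this
    · rw [Function.update_of_ne hi, Function.update_of_ne (by simpa using hi)]
      exact h2 i
  · simp only [Clu.mutate, mutX]
    rw [Function.update_of_ne (by simp)]
    exact h3

lemma Ext.fold (hψ : Function.Injective ψ) {P : F → Prop} (hP : Pos P) (ks : List ι) :
    ∀ (s' : (Option ι → K) × (Option ι → Option ι → ℤ)) (s : (ι → F) × (ι → ι → ℤ)),
      Ext ψ φ s' s → (∀ i, P (s.1 i)) →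
      Ext ψ φ ((ks.map some).foldl Clu.mutate s') (ks.foldl Clu.mutate s) := by
  induction ks with
  | nil => intro s' s h _; exact h
  | cons k ks ih =>
    intro s' s h hs
    exact ih _ _ (h.mutate hψ k (hP.ne_zero (hs k))) (hP.mutX hs _ _)

end Transfer

def extB (B : ι → ι → ℤ) (j : ι) : Option ι → Option ι → ℤ
  | none, none => 0
  | none, some i => if i = j then 1 else 0
  | some i, none => -(if i = j then 1 else 0)
  | some a, some b => B a b

omit [Fintype ι] in
lemma extB_skew {B : ι → ι → ℤ} (hB : Skew B) (j : ι) : Skew (extB B j) := by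
  rintro (_ | a) (_ | b)
  · simp [extB]
  · simp [extB]
  · simp [extB]
  · exact hB a b

def LP (n : ℕ) : Prop :=
  ∀ (ι : Type) [Fintype ι] [DecidableEq ι] (F : Type) [Field F] (P : F → Prop), Pos P →
    ∀ (x : ι → F) (B : ι → ι → ℤ), Skew B → (∀ i, P (x i)) → ∀ ks : List ι, ks.length ≤ n →
      ∀ i, (ks.foldl mutate (x, B)).1 i ∈ Lam x

lemma step_nonneg {n : ℕ} (ih : LP n) {F : Type} [Field F] {P : F → Prop} (hP : Pos P)
    (x : ι → F) (B : ι → ι → ℤ) (hB : Skew B) (hx : ∀ i, P (x i)) {j k : ι} (hjk : j ≠ k)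
    (hb : 0 ≤ B j k) (rest : List ι) (hl : rest.length + 1 ≤ n) (i : ι) :
    ((j :: k :: rest).foldl mutate (x, B)).1 i ∈ Lam x := by
  have hinj := IsFractionRing.injective (LR (Option ι)) (KK (Option ι))
  have hp := cone_pos _ hinj (ev1 (ι := Option ι))
  have hB' := extB_skew hB j
  set B' := extB B j with hB'def
  have p1 := hp.mutX XX_cone B' (some j)
  have p2 := hp.mutX p1 (mutB B' (some j)) (some k)
  have p3 := hp.mutX p2 (mutB (mutB B' (some j)) (some k)) (some j)
  have z1 := ih (Option ι) _ _ hp _ _ (hB'.mut (some j)) p1 (some k :: rest.map some)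
    (by simpa using hl) (some i)
  have z3 := ih (Option ι) _ _ hp _ _ (((hB'.mut (some j)).mut (some k)).mut (some j)) p3
    (some j :: rest.map some) (by simpa using hl) (some i)
  have inv := mutate_mutate hp _ p2 _ ((hB'.mut (some j)).mut (some k)) (some j)
  simp only [List.foldl_cons] at z1 z3
  rw [show (mutX (mutX (mutX XX B' (some j)) (mutB B' (some j)) (some k))
      (mutB (mutB B' (some j)) (some k)) (some j),
      mutB (mutB (mutB B' (some j)) (some k)) (some j)) =
      mutate (mutX (mutX XX B' (some j)) (mutB B' (some j)) (some k),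
        mutB (mutB B' (some j)) (some k)) (some j) from rfl, inv] at z3
  obtain ⟨l, hl'⟩ := univ_step B' hB' (j := some j) (k := some k) (y := none)
    (by simpa using hjk) (by simp) (by simp [hB'def, extB])
    (by simp [hB'def, extB, hjk.symm]) (b := (B j k).toNat)
    (by simp [hB'def, extB, hb]) _ z1 z3
  let x' : Option ι → F := fun o => o.elim 1 x
  have hx' : ∀ o, x' o ≠ 0 := by
    rintro (_ | a)
    · exact one_ne_zero
    · exact hP.ne_zero (hx a)
  have hE : Ext (algebraMap (LR (Option ι)) (KK (Option ι))) (ev x' hx') (XX, B') (x, B) := by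
    have r : ∀ o, Rel (algebraMap (LR (Option ι)) (KK (Option ι))) (ev x' hx') (XX o) (x' o) := by
      intro o
      have := Rel.of (algebraMap (LR (Option ι)) (KK (Option ι))) (ev x' hx') (T (Pi.single o 1))
      rwa [ev_T, mono_single, zpow_one] at this
    exact ⟨fun a b => rfl, fun i => r (some i), r none⟩
  have hF := (Ext.fold hinj hP (j :: k :: rest) _ _ hE hx).2.1 i
  have e : (((j :: k :: rest).map some).foldl mutate (XX, B')).1 (some i) =
      algebraMap (LR (Option ι)) (KK (Option ι)) l := by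
    rw [hl']; rfl
  rw [e] at hF
  rw [hF.eq hinj]
  have hle : Lam x' ≤ Lam x := by
    refine Subring.closure_le.mpr ?_
    rintro a (⟨_ | o, rfl⟩ | ⟨_ | o, rfl⟩)
    · exact one_mem _
    · exact Lam_x x o
    · simp [x']
    · exact Lam_inv x o
  exact hle (ev_mem x' hx' l)

theorem lp_all (n : ℕ) : LP n := by
  induction n with
  | zero =>
    intro ι _ _ F _ P hP x B hB hx ks hks i
    have : ks = [] := List.eq_nil_of_length_eq_zero (by omega)
    subst this
    exact Lam_x x i
  | succ n ih =>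
    intro ι _ _ F _ P hP x B hB hx ks hks i
    match ks, hks with
    | [], _ => exact Lam_x x i
    | [j], _ => exact mutX_mem x B j i
    | j :: k :: rest, hks =>
      simp only [List.length_cons] at hks
      by_cases hjk : j = k
      · subst hjk
        simp only [List.foldl_cons]
        rw [mutate_mutate hP x hx B hB j]
        exact ih ι F P hP x B hB hx rest (by omega) i
      · rcases le_total 0 (B j k) with hb | hb
        · exact step_nonneg ih hP x B hB hx hjk hb rest (by omega) i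
        · rw [← fold_neg]
          exact step_nonneg ih hP x (fun a b => -B a b) (fun a b => by simp [hB a b]) hx hjk
            (by simpa using hb) rest (by omega) i

/-- The Laurent phenomenon (Fomin-Zelevinsky) for skew-symmetric exchange matrices. -/
theorem laurent {F : Type} [Field F] {P : F → Prop} (hP : Pos P) (x : ι → F) (B : ι → ι → ℤ)
    (hB : Skew B) (hx : ∀ i, P (x i)) (ks : List ι) (i : ι) :
    (ks.foldl mutate (x, B)).1 i ∈ Lam x :=
  lp_all ks.length ι F P hP x B hB hx ks le_rfl i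

end Pool.Agent.H457Z.Clu
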