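import Pool.Agent.H457Z.Clu.Exch
import Pool.Agent.H457Z.Clu.Frieze

set_option autoImplicit false

namespace Pool.Agent.H457Z.Clu

open MvPolynomial Matrix

variable {k w : ℕ}

noncomputable abbrev psi (k w : ℕ) : Poly k w →+* RatF k w := algebraMap (Poly k w) (RatF k w)

lemma psi_inj : Function.Injective (psi k w) := IsFractionRing.injective _ _

lemma BB_skew : Skew (BB k w) := fun i j => by unfold BB; ring

lemma seed_cone (v : Vert k w) : Cone (psi k w) (th (mom k)) (psi k w (plucker v)) :=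
  ⟨plucker v, 1, th_mom_pos v, by simp, by simp⟩

lemma plucker_ne (v : Vert k w) : plucker v ≠ 0 := fun e => by
  have := th_mom_pos v
  rw [e, map_zero] at this
  exact lt_irrefl _ this

open Classical in
noncomputable def Phi (k w : ℕ) : Poly k w :=
  ∏ v ∈ Finset.univ.filter (fun v : Vert k w => ¬ Mutable v), plucker v

/-- Every variable of every seed is an integer polynomial in the matrix entries divided by a
power of the product of the frozen variables. -/
theorem poly_of_fold (hk : 0 < k) (ks : List (Vert k w)) (v : Vert k w) :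
    ∃ (N : ℕ) (g : Poly k w),
      (ks.foldl mutate (seed k w)).1 v * psi k w (Phi k w) ^ N = psi k w g := by
  classical
  refine starfish (psi k w) psi_inj (cone_pos _ psi_inj (th (mom k))) plucker (BB k w) BB_skew
    seed_cone Mutable (fun v _ => prime_plucker hk v) (fun v _ u h => not_dvd_plucker hk v u h)
    (fun v hv => ?_) ks v
  obtain ⟨y, h1, h2⟩ := good_all v hv
  refine ⟨y, ?_, h2⟩
  rw [mutX, Function.update_self, eq_div_iff ((map_ne_zero_iff _ psi_inj).mpr (plucker_ne v))]
  have := congrArg (psi k w) h1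
  simp only [map_add, map_prod, map_pow, map_mul] at this
  rw [this, mul_comm]

noncomputable def evA (A : Matrix (Fin k) (Fin (w + k + 1)) ℚ) : Poly k w →+* ℚ :=
  (aeval (fun p => A p.1 p.2) : Poly k w →ₐ[ℤ] ℚ).toRingHom

lemma evA_plucker (A : Matrix (Fin k) (Fin (w + k + 1)) ℚ) (v : Vert k w) :
    evA A (plucker v) = (Matrix.of fun r t : Fin k => col A (rc v t : ℕ) r).det := by
  unfold plucker
  rw [RingHom.map_det]
  congr 1
  ext r t
  simp [evA, ← rectCol_val, col_nat]

lemma evA_frozen (hk : 0 < k) (A : Matrix (Fin k) (Fin (w + k + 1)) ℚ)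
    (hA : ∀ i : ℤ, (Matrix.of fun r t : Fin k => col A (i + (t : ℕ)) r).det = 1)
    (v : Vert k w) (hv : ¬ Mutable v) : evA A (plucker v) = 1 := by
  rw [evA_plucker]
  rcases v with _ | ⟨i, j⟩
  · rw [← hA (w + 1)]
    congr 1
  · by_cases hi : (i : ℕ) + 1 < k
    · have hj : (j : ℕ) = w := by
        simp only [Mutable, not_and, not_lt] at hv
        have := hv hi
        have := j.2
        omega
      have h1 := D_rot (blk (col A) 0 (i + 1)) (blk (col A) (w + 2 + i) (k - i - 1))
        (by simp; omega)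
      have h2 : (blk (col A) 0 (i + 1)).map (fun x => ((-1 : ℚ) ^ (k - 1)) • x) =
          blk (col A) (w + 2 + i + ((k - i - 1 : ℕ) : ℤ)) (i + 1) := by
        simp only [blk, List.map_map]
        refine List.map_congr_left fun t _ => ?_
        simp only [Function.comp]
        rw [← col_per hk]
        congr 1
        omega
      rw [h2, ← blk_add, show k - i - 1 + (i + 1) = k by omega, D_blk, hA] at h1
      rw [← h1, ← D_map_eq (col A) ((List.range (i + 1)).map (fun t : ℕ => (0 : ℤ) + t) ++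
        (List.range (k - i - 1)).map (fun t : ℕ => (w + 2 + i : ℤ) + t))
        (fun t => ((rc (some (i, j) : Vert k w) t : ℕ) : ℤ)) (by simp; omega)]
      · simp [blk, Function.comp_def]
      · intro t ht
        simp only [List.getElem_append, List.length_map, List.length_range, List.getElem_map,
          List.getElem_range, rc]
        split_ifs <;> omega
    · rw [← hA ((w - j : ℕ) : ℤ)]
      congr 1
      ext r t
      simp only [of_apply, rc]
      rw [if_pos (by have := t.2; omega)]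
      push_cast
      rfl

lemma evA_Phi (hk : 0 < k) (A : Matrix (Fin k) (Fin (w + k + 1)) ℚ)
    (hA : ∀ i : ℤ, (Matrix.of fun r t : Fin k => col A (i + (t : ℕ)) r).det = 1) :
    evA A (Phi k w) = 1 := by
  classical
  unfold Phi
  rw [map_prod]
  exact Finset.prod_eq_one fun v hv => evA_frozen hk A hA v (Finset.mem_filter.mp hv).2

noncomputable def e1 (k w : ℕ) : Poly k w →+* MvPolynomial (Fin k × Fin (w + k + 1)) ℚ :=
  MvPolynomial.map (Int.castRingHom ℚ)

noncomputable def e2 (g : Matrix (Fin k) (Fin k) ℚ) (w : ℕ) :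
    Poly k w →+* MvPolynomial (Fin k × Fin (w + k + 1)) ℚ :=
  eval₂Hom (Int.castRingHom _) fun p => ∑ s, C (g p.1 s) * X (s, p.2)

lemma e1_inj : Function.Injective (e1 k w) := map_injective _ Int.cast_injective

lemma e2_plucker (g : Matrix (Fin k) (Fin k) ℚ) (hg : g.det = 1) (v : Vert k w) :
    e1 k w (plucker v) = e2 g w (plucker v) := by
  unfold plucker
  rw [RingHom.map_det, RingHom.map_det]
  have : (e2 g w).mapMatrix (Matrix.of fun r t : Fin k => (X (r, rectCol v t) : Poly k w)) =
      (C : ℚ →+* _).mapMatrix g *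
        (e1 k w).mapMatrix (Matrix.of fun r t : Fin k => (X (r, rectCol v t) : Poly k w)) := by
    ext1 r t
    simp [e1, e2, mul_apply]
  rw [this, det_mul, ← RingHom.map_det (C : ℚ →+* _) g, hg, map_one, one_mul]

lemma ev_inv (g : Matrix (Fin k) (Fin k) ℚ) (A : Matrix (Fin k) (Fin (w + k + 1)) ℚ)
    (f : Poly k w) (h : e1 k w f = e2 g w f) : evA A f = evA (g * A) f := by
  have a1 : (eval fun p => A p.1 p.2).comp (e1 k w) = evA A := by
    apply MvPolynomial.ringHom_ext
    · intro r; simp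
    · intro p; simp [e1, evA]
  have a2 : (eval fun p => A p.1 p.2).comp (e2 g w) = evA (g * A) := by
    apply MvPolynomial.ringHom_ext
    · intro r; simp
    · intro p; simp [e2, evA, mul_apply]
  rw [← a1, ← a2, RingHom.comp_apply, RingHom.comp_apply, h]

lemma invariant (g : Matrix (Fin k) (Fin k) ℚ) (hg : g.det = 1) (z : RatF k w)
    (hz : z ∈ Lam fun v => psi k w (plucker v)) (N : ℕ) (f : Poly k w)
    (hf : z * psi k w (Phi k w) ^ N = psi k w f) : e1 k w f = e2 g w f := by
  classical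
  let S := (e1 k w).eqLocus (e2 g w)
  have hS : ∀ v, plucker v ∈ S := fun v => e2_plucker g hg v
  have hPi : ∏ v : Vert k w, plucker v ∈ S := prod_mem fun v _ => hS v
  have hPhi : Phi k w ∈ S := prod_mem fun v _ => hS v
  obtain ⟨m, a, ha, ha'⟩ := Lam_clear (S.map (psi k w)) _ (psi k w (∏ v, plucker v))
    ⟨_, hPi, rfl⟩ (fun v => ⟨_, hS v, rfl⟩) (fun v => ⟨∏ u ∈ Finset.univ.erase v, plucker u,
      prod_mem fun u _ => hS u, by
        rw [← Finset.mul_prod_erase _ _ (Finset.mem_univ v), map_mul, ← mul_assoc,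
          inv_mul_cancel₀ ((map_ne_zero_iff _ psi_inj).mpr (plucker_ne v)), one_mul]⟩) z hz
  have key : f * (∏ v, plucker v) ^ m = a * Phi k w ^ N := by
    apply psi_inj
    rw [map_mul, map_mul, map_pow, map_pow, ha', ← hf]; ring
  have hne : e1 k w (∏ v : Vert k w, plucker v) ^ m ≠ 0 :=
    pow_ne_zero _ ((map_ne_zero_iff _ e1_inj).mpr (Finset.prod_ne_zero_iff.mpr
      fun v _ => plucker_ne v))
  apply mul_right_cancel₀ hne
  have k1 := congrArg (e1 k w) key
  have k2 := congrArg (e2 g w) key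
  rw [map_mul, map_mul, map_pow, map_pow] at k1 k2
  have ha2 : e1 k w a = e2 g w a := ha
  have hPi2 : e1 k w (∏ v : Vert k w, plucker v) = e2 g w (∏ v : Vert k w, plucker v) := hPi
  have hPhi2 : e1 k w (Phi k w) = e2 g w (Phi k w) := hPhi
  rw [k1, ha2, hPhi2, ← k2, hPi2]

lemma exists_g (hk : 0 < k) {M : ℤ → ℤ → ℚ} (hpos : PositiveIntegerValues w M)
    (A : Matrix (Fin k) (Fin (w + k + 1)) ℚ) (hA : Corresponds A M) :
    ∃ g : Matrix (Fin k) (Fin k) ℚ, g.det = 1 ∧ ∀ r c, ∃ z : ℤ, (g * A) r c = z := by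
  let g : Matrix (Fin k) (Fin k) ℚ :=
    Matrix.of fun r s => phi hk (col A) (-k + (r : ℕ)) (Pi.single s 1)
  have hE : ∀ i, D (blk (col A) i k) = 1 := fun i => by rw [D_blk]; exact hA.1 i
  refine ⟨g, ?_, fun r c => ?_⟩
  · have e : (g * Matrix.of fun r t : Fin k => col A ((0 : ℤ) + (t : ℕ)) r).det = 1 := by
      rw [det_of_upperTriangular]
      · refine Finset.prod_eq_one fun r _ => ?_
        simp only [g, mul_apply, of_apply]
        rw [← lin_apply, show (0 : ℤ) + (r : ℕ) = -k + (r : ℕ) + k by ring, phi_next, hE]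
      · intro r t hrt
        have : (t : ℕ) < r := hrt
        simp only [g, mul_apply, of_apply]
        rw [← lin_apply, phi_dup hk _ _ _ (by have := r.2; omega) (by omega)]
    rwa [det_mul, hA.1 0, mul_one] at e
  · have e : (g * A) r c = phi hk (col A) (-k + (r : ℕ)) (col A (c : ℕ)) := by
      rw [lin_apply]
      simp only [g, mul_apply, of_apply, col_nat]
    rw [e]
    have hr := r.2
    have hc := c.2
    rcases lt_trichotomy (c : ℕ) r with h | h | h
    · exact ⟨0, by rw [phi_dup hk _ _ _ (by omega) (by omega)]; simp⟩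
    · refine ⟨1, ?_⟩
      rw [show ((c : ℕ) : ℤ) = -k + (r : ℕ) + k by omega, phi_next, hE]; simp
    · rcases lt_trichotomy (c : ℕ) (r + w + 1) with h' | h' | h'
      · obtain ⟨z, -, hz⟩ := hpos (-k + (r : ℕ)) ((c : ℕ) - k - 1) (by omega) (by omega)
        have := hA.2 (-k + (r : ℕ)) ((c : ℕ) - k - 1) (by omega) (by omega)
        rw [← phi_det hk, show ((c : ℕ) : ℤ) - k - 1 + k + 1 = (c : ℕ) by ring] at this
        exact ⟨z, by rw [← this, hz]; simp⟩
      · refine ⟨1, ?_⟩
        rw [show ((c : ℕ) : ℤ) = -k + (r : ℕ) + (w + k + 1 : ℕ) by omega, col_per hk, map_smul,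
          smul_eq_mul, phi_prev, hE]
        simp
      · refine ⟨0, ?_⟩
        rw [show ((c : ℕ) : ℤ) = ((c : ℕ) - (w + k + 1 : ℕ)) + (w + k + 1 : ℕ) by ring,
          col_per hk, map_smul, phi_dup hk _ _ _ (by omega) (by omega)]
        simp

lemma evA_int (A : Matrix (Fin k) (Fin (w + k + 1)) ℚ) (hA : ∀ r c, ∃ z : ℤ, A r c = z)
    (f : Poly k w) : ∃ z : ℤ, evA A f = z := by
  choose Z hZ using hA
  refine ⟨eval (fun p => Z p.1 p.2) f, ?_⟩
  have : evA A = (Int.castRingHom ℚ).comp (eval fun p => Z p.1 p.2) := by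
    apply MvPolynomial.ringHom_ext
    · intro r; simp
    · intro p; simp [evA, hZ]
  rw [this]; rfl

lemma hasValue_unique {x : RatF k w} {A : Matrix (Fin k) (Fin (w + k + 1)) ℚ} {q q' : ℚ}
    (h : HasValue x A q) (h' : HasValue x A q') : q = q' := by
  obtain ⟨P, Q, hQ, h1, rfl⟩ := h
  obtain ⟨P', Q', hQ', h1', rfl⟩ := h'
  have a : psi k w Q ≠ 0 := (map_ne_zero_iff _ psi_inj).mpr (fun e => hQ (by simp [e]))
  have a' : psi k w Q' ≠ 0 := (map_ne_zero_iff _ psi_inj).mpr (fun e => hQ' (by simp [e]))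
  rw [h1, div_eq_div_iff a a', ← map_mul, ← map_mul] at h1'
  rw [div_eq_div_iff hQ hQ', ← map_mul, ← map_mul, psi_inj h1']

theorem main (k w : ℕ) (hk : 0 < k) (M : ℤ → ℤ → ℚ) (hM : IsFrieze k w M)
    (hpos : PositiveIntegerValues w M) :
    (∃ A : Matrix (Fin k) (Fin (w + k + 1)) ℚ, Corresponds A M) ∧
    ∀ A : Matrix (Fin k) (Fin (w + k + 1)) ℚ, Corresponds A M →
      ∀ x : RatF k w, IsClusterVariable k w x →
        ∃ z : ℤ, HasValue x A z ∧ ∀ q : ℚ, HasValue x A q → q = z := by
  refine ⟨exists_corr hM hk, fun A hA x ⟨ks, v, _, _, hx⟩ => ?_⟩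
  obtain ⟨N, f, hf⟩ := poly_of_fold hk ks v
  rw [← hx] at hf
  obtain ⟨g, hg, hint⟩ := exists_g hk hpos A hA
  have hL : x ∈ Lam fun v => psi k w (plucker v) := by
    rw [hx]
    exact laurent (cone_pos _ psi_inj (th (mom k))) _ (BB k w) BB_skew seed_cone ks v
  obtain ⟨z, hz⟩ := evA_int (g * A) hint f
  rw [← ev_inv g A f (invariant g hg x hL N f hf)] at hz
  have hP : evA A (Phi k w ^ N) = 1 := by rw [map_pow, evA_Phi hk A hA.1, one_pow]
  have hv : HasValue x A z := by
    refine ⟨f, Phi k w ^ N, ?_, ?_, ?_⟩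
    · change evA A (Phi k w ^ N) ≠ 0
      rw [hP]; exact one_ne_zero
    · have : psi k w (Phi k w ^ N) ≠ 0 :=
        (map_ne_zero_iff _ psi_inj).mpr (fun e => by rw [e] at hP; simp at hP)
      rw [eq_div_iff this, map_pow]
      exact hf
    · change (z : ℚ) = evA A f / evA A (Phi k w ^ N)
      rw [hP, hz, div_one]
  exact ⟨z, hv, fun q hq => hasValue_unique hq hv⟩

end Pool.Agent.H457Z.Clu
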