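import Mathlib

set_option autoImplicit false

namespace Pool.Agent.H457Z.Clu

/-- Matrix mutation in direction `k` (Fomin-Zelevinsky). -/
def mutB {ι : Type} [DecidableEq ι] (B : ι → ι → ℤ) (k : ι) : ι → ι → ℤ := fun i j =>
  if i = k ∨ j = k then -B i j
  else B i j + max (B i k) 0 * max (B k j) 0 - max (-B i k) 0 * max (-B k j) 0

/-- Cluster mutation in direction `k`: the exchange relation. -/
noncomputable def mutX {ι F : Type} [Fintype ι] [DecidableEq ι] [Field F] (x : ι → F)
    (B : ι → ι → ℤ) (k : ι) : ι → F :=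
  Function.update x k ((∏ i, x i ^ (B i k).toNat + ∏ i, x i ^ (-B i k).toNat) / x k)

/-- Seed mutation in direction `k`. -/
noncomputable def mutate {ι F : Type} [Fintype ι] [DecidableEq ι] [Field F]
    (s : (ι → F) × (ι → ι → ℤ)) (k : ι) : (ι → F) × (ι → ι → ℤ) :=
  (mutX s.1 s.2 k, mutB s.2 k)

end Pool.Agent.H457Z.Clu
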